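import Pool.Agent.N880.HP.Stm
import Pool.Agent.N880.HD.Const
import Pool.Agent.R321.RG3

/-!
Project HP (helper880), leaf C2 (helper706): the window constant for two L-functions.
-/

set_option autoImplicit false

namespace Pool.Agent.N880.HP

open H385 (Rw)
open MeasureTheory

namespace C2

lemma sin_ge_cubic {x : ℝ} (hx : 0 ≤ x) : x - x ^ 3 / 6 ≤ Real.sin x := by
  have key : ∀ y : ℝ, HasDerivAt (fun y : ℝ => Real.sin y - (y - y ^ 3 / 6))
      (Real.cos y - (1 - (3 * y ^ 2) / 6)) y := by
    intro y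
    have h3 : HasDerivAt (fun y : ℝ => y ^ 3) (3 * y ^ 2) y := by simpa using hasDerivAt_pow 3 y
    exact (Real.hasDerivAt_sin y).sub ((hasDerivAt_id y).sub (h3.div_const 6))
  have hmono : MonotoneOn (fun y : ℝ => Real.sin y - (y - y ^ 3 / 6)) (Set.Ici 0) := by
    apply monotoneOn_of_deriv_nonneg (convex_Ici 0)
    · fun_prop
    · intro y _
      exact (key y).differentiableAt.differentiableWithinAt
    · intro y _
      rw [(key y).deriv]
      have := Real.one_sub_sq_div_two_le_cos (x := y)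
      linarith
  have := hmono (Set.mem_Ici.mpr le_rfl) (Set.mem_Ici.mpr hx) hx
  simp at this
  linarith

lemma cos_le_quartic {x : ℝ} (hx : 0 ≤ x) : Real.cos x ≤ 1 - x ^ 2 / 2 + x ^ 4 / 24 := by
  have key : ∀ y : ℝ, HasDerivAt (fun y : ℝ => (1 - y ^ 2 / 2 + y ^ 4 / 24) - Real.cos y)
      ((-(2 * y) / 2 + (4 * y ^ 3) / 24) - (-Real.sin y)) y := by
    intro y
    have h2 : HasDerivAt (fun y : ℝ => y ^ 2) (2 * y) y := by simpa using hasDerivAt_pow 2 y
    have h4 : HasDerivAt (fun y : ℝ => y ^ 4) (4 * y ^ 3) y := by simpa using hasDerivAt_pow 4 y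
    have h5 := (((h2.div_const 2).const_sub 1).add (h4.div_const 24)).sub (Real.hasDerivAt_cos y)
    exact h5.congr_deriv (by ring)
  have hmono : MonotoneOn (fun y : ℝ => (1 - y ^ 2 / 2 + y ^ 4 / 24) - Real.cos y)
      (Set.Ici 0) := by
    apply monotoneOn_of_deriv_nonneg (convex_Ici 0)
    · fun_prop
    · intro y _
      exact (key y).differentiableAt.differentiableWithinAt
    · intro y hy
      rw [(key y).deriv]
      rw [interior_Ici] at hy
      have := sin_ge_cubic (le_of_lt hy)
      linarith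
  have := hmono (Set.mem_Ici.mpr le_rfl) (Set.mem_Ici.mpr hx) hx
  simp at this
  linarith

lemma cot_anti : AntitoneOn (fun x : ℝ => x + Real.cos x / Real.sin x) (Set.Ioo 0 Real.pi) := by
  apply antitoneOn_of_deriv_nonpos (convex_Ioo 0 Real.pi)
  · refine ContinuousOn.add continuousOn_id (ContinuousOn.div Real.continuous_cos.continuousOn
      Real.continuous_sin.continuousOn fun x hx => (Real.sin_pos_of_mem_Ioo hx).ne')
  · rw [interior_Ioo]
    intro x hx
    have hs := (Real.sin_pos_of_mem_Ioo hx).ne'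
    exact ((hasDerivAt_id x).add ((Real.hasDerivAt_cos x).div (Real.hasDerivAt_sin x)
      hs)).differentiableAt.differentiableWithinAt
  · rw [interior_Ioo]
    intro x hx
    have hs := Real.sin_pos_of_mem_Ioo hx
    have hd := (hasDerivAt_id x).add ((Real.hasDerivAt_cos x).div (Real.hasDerivAt_sin x) hs.ne')
    have hd' : HasDerivAt (fun x : ℝ => x + Real.cos x / Real.sin x)
        (1 + (-Real.sin x * Real.sin x - Real.cos x * Real.cos x) / Real.sin x ^ 2) x := hd
    rw [hd'.deriv]
    have h1 : (-Real.sin x * Real.sin x - Real.cos x * Real.cos x) / Real.sin x ^ 2 =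
        -(1 / Real.sin x ^ 2) := by
      have := Real.sin_sq_add_cos_sq x
      rw [← neg_div]
      congr 1
      linarith
    rw [h1]
    have h2 : 1 ≤ 1 / Real.sin x ^ 2 := by
      rw [le_div_iff₀ (by positivity), one_mul]
      nlinarith [Real.sin_sq_add_cos_sq x, sq_nonneg (Real.cos x)]
    linarith

/-- upper bound for the cotangent -/
lemma cot_le {x a b : ℝ} (hx : 0 ≤ x) (ha : 1 - x ^ 2 / 2 + x ^ 4 / 24 ≤ a) (ha0 : 0 ≤ a)
    (hb : b ≤ x - x ^ 3 / 6) (hb0 : 0 < b) : Real.cot x ≤ a / b := by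
  rw [Real.cot_eq_cos_div_sin]
  exact div_le_div₀ ha0 ((cos_le_quartic hx).trans ha) hb0 (hb.trans (sin_ge_cubic hx))

end C2

theorem c2_main : S_c2 := by
  have hpi := Real.pi_gt_three
  refine ⟨?_, ?_, ?_, ?_, ?_⟩
  · intro h h0 h1
    refine ⟨h0, by linarith, ?_⟩
    have hs2 : Real.sqrt 2 ^ 2 = 2 := Real.sq_sqrt (by norm_num)
    have hs0 : 0 < Real.sqrt 2 := Real.sqrt_pos.mpr (by norm_num)
    have hs1 : 1 ≤ Real.sqrt 2 := by rw [Real.one_le_sqrt]; norm_num
    have hk := Pool.Agent.N880.HD.const_Rw (h / Real.sqrt 2) (by positivity)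
      ((div_le_self h0.le hs1).trans h1)
    have e1 : Real.sqrt 2 * (h / Real.sqrt 2) = h := by field_simp
    have e2 : h / Real.sqrt 2 / Real.sqrt 2 = h / 2 := by
      rw [div_div, ← sq, hs2]
    rw [e1, e2] at hk
    set R := Rw h 0
    set J := ∫ α in (0 : ℝ)..1, α * Rw h α
    unfold c2
    have e3 : 2 * R / h + 2 * h * J =
        Real.sqrt 2 * (1 / (h / Real.sqrt 2) * R + 2 * (h / Real.sqrt 2) * J) := by
      field_simp
      rw [hs2]
      ring
    rw [e3, hk]
    field_simp
  · intro a b ha hab hb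
    have h := C2.cot_anti (a := a / 2) (b := b / 2) ⟨by linarith, by linarith⟩
      ⟨by linarith, by linarith⟩ (by linarith)
    unfold c2
    rw [Real.cot_eq_cos_div_sin, Real.cot_eq_cos_div_sin]
    exact h
  · unfold c2
    have h1 := abs_le.1 Pool.Agent.R321.RG.trig_1.1
    have h2 := abs_le.1 Pool.Agent.R321.RG.trig_1.2
    have hsin : 0 < Real.sin 1 := by linarith [h2.1]
    have h3 : Real.cos 1 / Real.sin 1 < 0.6421 := by
      rw [div_lt_iff₀ hsin]
      linarith [h1.2, h2.1]
    rw [show (2 : ℝ) / 2 = 1 by norm_num, Real.cot_eq_cos_div_sin]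
    linarith
  · unfold c2
    have h := C2.cot_le (x := 3 / 2 / 2) (a := 0.731934) (b := 0.6796875) (by norm_num)
      (by norm_num) (by norm_num) (by norm_num) (by norm_num)
    have h2 : (0.731934 : ℝ) / 0.6796875 ≤ 1.077 := by norm_num
    linarith
  · unfold c2
    have h := C2.cot_le (x := 19 / 15 / 2) (a := 0.80615) (b := 0.59099) (by norm_num)
      (by norm_num) (by norm_num) (by norm_num) (by norm_num)
    have h2 : (0.80615 : ℝ) / 0.59099 ≤ 1.36407 := by norm_num
    linarith

end Pool.Agent.N880.HP
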