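import Pool.Agent.R321.RC1
import Pool.Agent.H385R2.FamBase
import Pool.Agent.N880.HD.Stm2
import Pool.Agent.N880.QF.Stm

/-!
Project HP (helper880): common zeros of two Dirichlet L-functions at heights up to a power of the
conductor.  Statements of the leaves.
-/

set_option autoImplicit false

open Complex Filter Topology MeasureTheory Set

namespace Pool.Agent.N880.HP

open H385 (primSet WW Pf Rw IX bt)

/-- the coefficients of `- L'/L` of a character of the family -/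
noncomputable def cfp (p : IX) (n : ℕ) : ℂ :=
  p.2 (n : ZMod p.1) * (ArithmeticFunction.vonMangoldt n : ℂ)

/-- the mean square of the average over the family of the prime sums -/
def S_cross : Prop := ∀ (τ s : ℝ), 0 ≤ τ → 0 < s → s ≤ 1 / 2 → ∃ C X0 : ℝ, 0 < C ∧ 3 ≤ X0 ∧
  ∀ (X Y : ℕ) (T u : ℝ), X0 ≤ X → 1 ≤ T → (Real.log (X * T)) ^ 2 ≤ T → T ≤ (X : ℝ) ^ τ → 0 ≤ u →
    u ≤ (1 - s) * ((2 + τ) / (1 + τ)) * Real.log (X * T) →
    ∫ t : ℝ, ‖∑ p ∈ primSet X Y, ((1 / (p.1 : ℝ) ^ 2 : ℝ) : ℂ) * Pf (cfp p) T u t‖ ^ 2 ≤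
      C * (1 + WW X Y) ^ 2 * T

/-- the constant for products of two L-functions -/
noncomputable def c2 (h : ℝ) : ℝ := h / 2 + Real.cot (h / 2)

/-- the window for products of two L-functions -/
def S_c2 : Prop := (∀ h : ℝ, 0 < h → h ≤ 2 → 0 < h ∧ h < Real.pi ∧
    2 * Rw h 0 / h + 2 * h * (∫ α in (0 : ℝ)..1, α * Rw h α) = c2 h) ∧
  (∀ a b : ℝ, 0 < a → a ≤ b → b ≤ 2 → c2 b ≤ c2 a) ∧
  c2 2 ≤ 1.6421 ∧ c2 (3 / 2) ≤ 1.827 ∧ c2 (19 / 15) ≤ 1.9975

end Pool.Agent.N880.HP
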