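import Pool.Agent.R321.RC3
import Pool.Agent.N880.HP.Stm

/-! # The mean square for pairs of characters -/

set_option autoImplicit false

open Complex Filter Topology MeasureTheory Set

namespace Pool.Agent.N880.HP

open H385 (primSet primFam primFam_eq WW Pf Rw IX bt fa_Pf_int fa_Pf_cont primFam_nonneg prim_mass c0)
open Pool.Agent.R321.RC (PS w2 w2_nonneg sum_w2 WW_eq cf cf_norm Pf_add pair_id)
open Pool.Agent.N7.MainC (inner)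

set_option maxHeartbeats 4000000 in
theorem ms_pairs_gen (X Y : ℕ) (T u Z Cr : ℝ) (hT : 1 ≤ T)
    (hZ : ∫ t : ℝ, primFam X Y (fun q χ =>
      ‖∑' n : ℕ, (χ (n : ZMod q) * (ArithmeticFunction.vonMangoldt n : ℂ)) *
        ((Real.sqrt n : ℂ)⁻¹ * bt T u t (Real.log n))‖ ^ 2) ≤ Z)
    (hCr : ∫ t : ℝ, ‖∑ p ∈ primSet X Y, ((1 / (p.1 : ℝ) ^ 2 : ℝ) : ℂ) * Pf (cfp p) T u t‖ ^ 2 ≤
      Cr) :
    ∫ t : ℝ, ∑ z ∈ PS X Y, w2 z *
      ‖∑' n : ℕ, (cf z.1 n + cf z.2 n) * ((Real.sqrt n : ℂ)⁻¹ * bt T u t (Real.log n))‖ ^ 2 ≤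
      2 * WW X Y * Z + 2 * Cr := by
  have hT0 : 0 ≤ T := by linarith
  have hint : ∀ p : IX, Integrable (fun t => ‖Pf (cf p) T u t‖ ^ 2) := fun p =>
    fa_Pf_int (cf_norm p) T u hT0
  have hc : ∀ p : IX, Continuous (fun t => Pf (cf p) T u t) := fun p =>
    fa_Pf_cont (cf_norm p) T u hT0
  have e1 : ∀ t : ℝ, ∑ z ∈ PS X Y, w2 z *
      ‖∑' n : ℕ, (cf z.1 n + cf z.2 n) * ((Real.sqrt n : ℂ)⁻¹ * bt T u t (Real.log n))‖ ^ 2 =
      2 * WW X Y * (∑ p ∈ primSet X Y, (1 / (p.1 : ℝ) ^ 2) * ‖Pf (cf p) T u t‖ ^ 2) +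
      2 * ‖∑ p ∈ primSet X Y, ((1 / (p.1 : ℝ) ^ 2 : ℝ) : ℂ) * Pf (cf p) T u t‖ ^ 2 := by
    intro t
    rw [WW_eq, ← pair_id (primSet X Y) (fun p => 1 / (p.1 : ℝ) ^ 2) (fun p => Pf (cf p) T u t)]
    refine Finset.sum_congr rfl fun z _ => ?_
    have := Pf_add (cf_norm z.1) (cf_norm z.2) T u t hT0
    unfold Pf at this ⊢
    rw [this]
    rfl
  simp_rw [e1]
  have hi1 : Integrable (fun t => ∑ p ∈ primSet X Y, (1 / (p.1 : ℝ) ^ 2) * ‖Pf (cf p) T u t‖ ^ 2) :=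
    integrable_finset_sum _ fun p _ => (hint p).const_mul _
  have hi2 : Integrable (fun t => ‖∑ p ∈ primSet X Y,
      ((1 / (p.1 : ℝ) ^ 2 : ℝ) : ℂ) * Pf (cf p) T u t‖ ^ 2) := by
    refine Integrable.mono' (hi1.const_mul (∑ p ∈ primSet X Y, (1 / (p.1 : ℝ) ^ 2))) ?_ ?_
    · exact ((continuous_finset_sum _ fun p _ => continuous_const.mul (hc p)).norm.pow
        2).aestronglyMeasurable
    · refine Filter.Eventually.of_forall fun t => ?_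
      rw [Real.norm_of_nonneg (sq_nonneg _)]
      have k1 : ‖∑ p ∈ primSet X Y, ((1 / (p.1 : ℝ) ^ 2 : ℝ) : ℂ) * Pf (cf p) T u t‖ ≤
          ∑ p ∈ primSet X Y, Real.sqrt (1 / (p.1 : ℝ) ^ 2) *
            (Real.sqrt (1 / (p.1 : ℝ) ^ 2) * ‖Pf (cf p) T u t‖) := by
        refine (norm_sum_le _ _).trans (Finset.sum_le_sum fun p _ => ?_)
        rw [norm_mul, Complex.norm_real, Real.norm_of_nonneg (by positivity), ← mul_assoc,
          Real.mul_self_sqrt (by positivity)]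
      have k2 := Finset.sum_mul_sq_le_sq_mul_sq (primSet X Y)
        (fun p : IX => Real.sqrt (1 / (p.1 : ℝ) ^ 2))
        (fun p : IX => Real.sqrt (1 / (p.1 : ℝ) ^ 2) * ‖Pf (cf p) T u t‖)
      refine (pow_le_pow_left₀ (norm_nonneg _) k1 2).trans (k2.trans (le_of_eq ?_))
      congr 1
      · exact Finset.sum_congr rfl fun p _ => Real.sq_sqrt (by positivity)
      · refine Finset.sum_congr rfl fun p _ => ?_
        rw [mul_pow, Real.sq_sqrt (by positivity)]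
  rw [integral_add (hi1.const_mul _) (hi2.const_mul _), integral_const_mul, integral_const_mul]
  have hW : 0 ≤ WW X Y := primFam_nonneg _ _ _ (fun _ _ => zero_le_one)
  have hZ' : ∫ t : ℝ, ∑ p ∈ primSet X Y, (1 / (p.1 : ℝ) ^ 2) * ‖Pf (cf p) T u t‖ ^ 2 ≤ Z := by
    refine le_trans (le_of_eq ?_) hZ
    congr 1
    funext t
    rw [primFam_eq]
    rfl
  have h3 : 2 * WW X Y * (∫ t : ℝ, ∑ p ∈ primSet X Y, (1 / (p.1 : ℝ) ^ 2) *
      ‖Pf (cf p) T u t‖ ^ 2) ≤ 2 * WW X Y * Z := mul_le_mul_of_nonneg_left hZ' (by positivity)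
  have h4 : ∫ t : ℝ, ‖∑ p ∈ primSet X Y, ((1 / (p.1 : ℝ) ^ 2 : ℝ) : ℂ) * Pf (cf p) T u t‖ ^ 2 ≤
      Cr := hCr
  linarith

/-- the mass of the family -/
lemma mass_ge : ∃ K : ℝ, 1 ≤ K ∧ ∀ X Y : ℕ, 1 ≤ X → K * X ≤ Y → 1 ≤ WW X Y := by
  obtain ⟨C4, hC4, hmass⟩ := prim_mass
  have hc0 : 0 < c0 := by unfold c0; positivity
  refine ⟨max 1 (Real.exp ((C4 + 1) / c0 ^ 2)), le_max_left _ _, fun X Y hX hKX => ?_⟩
  have hXpos : (0 : ℝ) < X := by exact_mod_cast hX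
  have hXYr : (X : ℝ) ≤ Y := by
    have : (1 : ℝ) * X ≤ max 1 (Real.exp ((C4 + 1) / c0 ^ 2)) * X :=
      mul_le_mul_of_nonneg_right (le_max_left _ _) hXpos.le
    linarith
  have hKX2 : Real.exp ((C4 + 1) / c0 ^ 2) * X ≤ Y :=
    (mul_le_mul_of_nonneg_right (le_max_right _ _) hXpos.le).trans hKX
  have hXY : X ≤ Y := by exact_mod_cast hXYr
  have h1 := (abs_le.1 (hmass X Y hX hXY)).1
  have hYpos : (0 : ℝ) < Y := lt_of_lt_of_le hXpos hXYr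
  have h2 : (C4 + 1) / c0 ^ 2 ≤ Real.log ((Y : ℝ) / X) := by
    rw [Real.le_log_iff_exp_le (by positivity), le_div_iff₀ hXpos]
    exact hKX2
  rw [div_le_iff₀ (by positivity)] at h2
  have h3 : primFam X Y (fun _ _ => 1) = WW X Y := rfl
  rw [h3] at h1
  have h4 : c0 ^ 2 * Real.log ((Y : ℝ) / X) = Real.log ((Y : ℝ) / X) * c0 ^ 2 := mul_comm _ _
  linarith

/-- the mean square hypothesis of the abstract core for the pairs -/
theorem ms_pairs2 (hcross : S_cross) (hms : Pool.Agent.N880.HD.S_ms) (τ : ℝ) (hτ : 0 ≤ τ) :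
    ∀ s : ℝ, 0 < s → s ≤ 1 / 2 → ∃ K C X0 : ℝ, 1 ≤ K ∧ 0 < C ∧ 3 ≤ X0 ∧
      ∀ (X Y : ℕ) (T u : ℝ), X0 ≤ X → K * X ≤ Y → (Y : ℝ) ≤ (X : ℝ) ^ 2 →
      1 ≤ T → (Real.log (X * T)) ^ 2 ≤ T → T ≤ (X : ℝ) ^ τ → 0 ≤ u →
      u ≤ (1 - s) * ((2 + τ) / (1 + τ)) * Real.log (X * T) →
      ∫ t : ℝ, ∑ z ∈ PS X Y, w2 z *
        ‖∑' n : ℕ, (cf z.1 n + cf z.2 n) * ((Real.sqrt n : ℂ)⁻¹ * bt T u t (Real.log n))‖ ^ 2 ≤
      (1 + s) * (∑ z ∈ PS X Y, w2 z) * (T / (2 * Real.pi)) * (2 * inner 1 u) +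
        C * (∑ z ∈ PS X Y, w2 z) * T := by
  intro s hs hs1
  obtain ⟨K1, C1, X1, hK1, hC1, hX1, h1⟩ := hms τ s hτ hs hs1
  obtain ⟨C2, X2, hC2, hX2, h2⟩ := hcross τ s hτ hs hs1
  obtain ⟨K3, hK3, h3⟩ := mass_ge
  refine ⟨max K1 K3, 2 * C1 + 8 * C2, max X1 X2, le_max_of_le_left hK1, by positivity,
    le_max_of_le_left hX1, ?_⟩
  intro X Y T u a1 a2 a3 a4 a5 a6 a7 a8
  have hXX1 : X1 ≤ X := (le_max_left _ _).trans a1
  have hXX2 : X2 ≤ X := (le_max_right _ _).trans a1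
  have hX0 : (0 : ℝ) < X := by linarith
  have hXn : 1 ≤ X := by exact_mod_cast hX0
  have hKX1 : K1 * X ≤ Y := (mul_le_mul_of_nonneg_right (le_max_left _ _) hX0.le).trans a2
  have hKX3 : K3 * X ≤ Y := (mul_le_mul_of_nonneg_right (le_max_right _ _) hX0.le).trans a2
  have hW := h3 X Y hXn hKX3
  obtain ⟨W, hWd⟩ : ∃ W, W = WW X Y := ⟨_, rfl⟩
  have b1 := h1 X Y T u hXX1 hKX1 a3 a4 a5 a6 a7 a8
  have b2 := h2 X Y T u hXX2 a4 a5 a6 a7 a8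
  have b3 := ms_pairs_gen X Y T u _ _ a4 b1 b2
  refine b3.trans ?_
  rw [sum_w2]
  rw [← hWd] at hW ⊢
  have hT0 : 0 ≤ T := by linarith
  have e1 : (1 + W) ^ 2 ≤ 4 * W ^ 2 := by nlinarith
  have e2 : C2 * (1 + W) ^ 2 * T ≤ C2 * (4 * W ^ 2) * T :=
    mul_le_mul_of_nonneg_right (mul_le_mul_of_nonneg_left e1 hC2.le) hT0
  have e3 : 2 * W * ((1 + s) * W * (T / (2 * Real.pi)) * inner 1 u + C1 * W * T) +
      2 * (C2 * (4 * W ^ 2) * T) =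
      (1 + s) * W ^ 2 * (T / (2 * Real.pi)) * (2 * inner 1 u) +
        (2 * C1 + 8 * C2) * W ^ 2 * T := by ring
  linarith

end Pool.Agent.N880.HP
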