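import Pool.Agent.R321.RC7
import Pool.Agent.N880.HP.Pairs
import Pool.Agent.N880.HP.CoreAbs
import Pool.Agent.N880.HD.Fin

/-! # Common zeros of two Dirichlet L-functions, on average over all pairs -/

set_option autoImplicit false

open Complex Filter Topology MeasureTheory Set

namespace Pool.Agent.N880.HP

open H385 (primSet WW Rw IX bt good_dirichlet_U GoodD mem_primSet LF)
open H370 (zset mult NN Nd Ns GoodL)
open Pool.Agent.R321.RC (PS w2 w2_nonneg sum_w2 cf F2 avg2 avg2_nonneg good_pair counts On Cm LI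
  avg2_swap avg2_add avg2_mul avg2_mono)
open Pool.Agent.N7.MainC (inner inner_continuous inner_nonneg inner_le)
open Pool.Agent.N880.QF (Y_int1)

/-- the exponent `h = (2 + τ) / (1 + τ)` -/
noncomputable def hh (τ : ℝ) : ℝ := (2 + τ) / (1 + τ)

lemma hh_pos {τ : ℝ} (hτ : 0 ≤ τ) : 0 < hh τ := by unfold hh; positivity

lemma hh_le {τ : ℝ} (hτ : 0 ≤ τ) : hh τ ≤ 2 := by
  unfold hh
  rw [div_le_iff₀ (by linarith)]; linarith

/-- scaling of the window integral -/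
lemma Y_int2 (γ : ℝ) (h0 : 0 < γ) (hπ : γ < Real.pi) : ∀ s : ℝ, 0 < s → ∃ L0 : ℝ, 0 < L0 ∧
    ∀ (Λ A B T : ℝ), L0 ≤ Λ → 0 ≤ A → 0 ≤ B → 0 ≤ T →
    ∫ u in (0 : ℝ)..Λ, Rw γ (u / Λ) * (A * (2 * inner 1 u) + B * T) ≤
      A * (Real.sqrt Real.pi * Λ ^ 2 * (2 * (∫ α in (0 : ℝ)..1, α * Rw γ α) + s)) +
        B * (Rw γ 0 * Λ * T) := by
  intro s hs
  obtain ⟨L0, hL0, h⟩ := Y_int1 γ h0 hπ (s := s / 2) (by positivity)
  refine ⟨L0, hL0, fun Λ A B T hΛ hA hB hT => ?_⟩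
  have h1 := h Λ (2 * A) B T 0 hΛ (by positivity) hB hT le_rfl
  simp only [zero_mul, add_zero] at h1
  have e1 : ∀ u, Rw γ (u / Λ) * (A * (2 * inner 1 u) + B * T) =
      Rw γ (u / Λ) * (2 * A * inner 1 u + B * T) := fun u => by ring
  simp_rw [e1]
  refine h1.trans (le_of_eq ?_)
  ring

set_option maxHeartbeats 4000000 in
theorem pairs_core2 (hcross : S_cross) (hms : Pool.Agent.N880.HD.S_ms) (hc2 : S_c2) (τ ε : ℝ)
    (hτ : 0 ≤ τ) (hε : 0 < ε) :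
    ∃ K η X0 : ℝ, 1 ≤ K ∧ 0 < η ∧ 1 ≤ X0 ∧
    ∀ (X Y : ℕ) (T : ℝ), X0 ≤ X → K * X ≤ Y → (Y : ℝ) ≤ (X : ℝ) ^ (1 + η) →
      4 * (Real.log X) ^ 2 ≤ T → T ≤ (X : ℝ) ^ τ →
      0 < avg2 X Y (fun z => (NN (F2 z) T (2 * T) : ℝ)) ∧
      avg2 X Y (fun z => 2 * (NN (F2 z) T (2 * T) : ℝ) - (Ns (F2 z) T (2 * T) : ℝ)) ≤
        (c2 (hh τ) + ε) * avg2 X Y (fun z => (NN (F2 z) T (2 * T) : ℝ)) ∧
      avg2 X Y (fun z => 3 * (NN (F2 z) T (2 * T) : ℝ) - 2 * (Nd (F2 z) T (2 * T) : ℝ)) ≤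
        (c2 (hh τ) + ε) * avg2 X Y (fun z => (NN (F2 z) T (2 * T) : ℝ)) := by
  obtain ⟨A0, hA0, hgood0⟩ := good_dirichlet_U
  obtain ⟨g0, g1, g2⟩ := hc2.1 (hh τ) (hh_pos hτ) (hh_le hτ)
  obtain ⟨Ci, hCi, hinner⟩ := inner_le 1 le_rfl
  have hA : 1 ≤ 2 * A0 ^ 2 := by nlinarith
  have hfam : ∀ X Y : ℕ, 1 ≤ X → ∀ z ∈ PS X Y, 0 ≤ w2 z ∧
      (X : ℝ) ≤ Real.sqrt ((z.1.1 : ℝ) * (z.2.1 : ℝ)) ∧
      Real.sqrt ((z.1.1 : ℝ) * (z.2.1 : ℝ)) ≤ Y ∧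
      GoodD 2 (2 * A0 ^ 2) (Real.sqrt ((z.1.1 : ℝ) * (z.2.1 : ℝ))) (F2 z)
        (fun n => cf z.1 n + cf z.2 n) := by
    intro X Y hX z hz
    have hX0 : (0 : ℝ) < X := by exact_mod_cast hX
    have hz' := hz
    unfold PS at hz'
    rw [Finset.mem_product] at hz'
    obtain ⟨h1, h2, h3⟩ := (mem_primSet X Y z.1).mp hz'.1
    obtain ⟨k1, k2, k3⟩ := (mem_primSet X Y z.2).mp hz'.2
    have a1 : (X : ℝ) ≤ z.1.1 := by exact_mod_cast h1.le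
    have a2 : (z.1.1 : ℝ) ≤ Y := by exact_mod_cast h2
    have a3 : (X : ℝ) ≤ z.2.1 := by exact_mod_cast k1.le
    have a4 : (z.2.1 : ℝ) ≤ Y := by exact_mod_cast k2
    have hY0 : (0 : ℝ) < Y := by linarith
    refine ⟨w2_nonneg z, ?_, ?_, good_pair hA0 hgood0 hX hz⟩
    · rw [Real.le_sqrt' hX0, sq]
      exact mul_le_mul a1 a3 hX0.le (by linarith)
    · rw [Real.sqrt_le_left hY0.le, sq]
      exact mul_le_mul a2 a4 (by linarith) hY0.le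
  obtain ⟨K, η, X0, hK, hη, hX0, H⟩ := coreAbs 2 (2 * A0 ^ 2) (by norm_num) hA PS w2
    (fun z => Real.sqrt ((z.1.1 : ℝ) * (z.2.1 : ℝ))) F2 (fun z n => cf z.1 n + cf z.2 n) hfam
    (fun u => 2 * inner 1 u) ((inner_continuous one_pos).const_mul 2 |>.congr fun _ => rfl)
    (fun u => mul_nonneg (by norm_num) (inner_nonneg _ _)) (2 * Ci) (by positivity)
    (fun u hu => by
      have := hinner u hu
      linarith)
    2 τ (hh τ) (c2 (hh τ) + ε) (by norm_num) hτ g0 g1 (Y_int2 (hh τ) g0 g1)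
    (ms_pairs2 hcross hms τ hτ) (by
      have e1 : (2 : ℝ) * Rw (hh τ) 0 / ((2 + τ) / (1 + τ)) + 2 * ((2 + τ) / (1 + τ)) *
          (2 * ∫ α in (0 : ℝ)..1, α * Rw (hh τ) α) / 2 = c2 (hh τ) := by
        rw [← g2]
        unfold hh
        ring
      rw [e1]
      linarith)
  obtain ⟨K3, hK3, h3⟩ := mass_ge
  refine ⟨max K K3, η, X0, le_max_of_le_left hK, hη, hX0, ?_⟩
  intro X Y T a1 a2 a3 a4 a5
  have hX1 : (1 : ℝ) ≤ X := hX0.trans a1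
  have hXn : 1 ≤ X := by exact_mod_cast hX1
  have hKX1 : K * X ≤ Y := (mul_le_mul_of_nonneg_right (le_max_left _ _) (by linarith)).trans a2
  have hKX3 : K3 * X ≤ Y := (mul_le_mul_of_nonneg_right (le_max_right _ _) (by linarith)).trans a2
  have hW := h3 X Y hXn hKX3
  obtain ⟨b0, b1, b2⟩ := H X Y T a1 hKX1 a3 a4 a5
  refine ⟨?_, b1, b2⟩
  have h4 : ∑ z ∈ PS X Y, w2 z ≤ avg2 X Y (fun z => (NN (F2 z) T (2 * T) : ℝ)) := by
    unfold avg2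
    exact Finset.sum_le_sum fun z hz => le_mul_of_one_le_right (w2_nonneg z) (b0 z hz)
  rw [sum_w2] at h4
  nlinarith

set_option maxHeartbeats 4000000 in
/-- **Common zeros on average over the pairs, heights up to `X ^ τ`.** -/
theorem pairs_fin (hcross : S_cross) (hms : Pool.Agent.N880.HD.S_ms) (hc2 : S_c2) (τ ε : ℝ)
    (hτ : 0 ≤ τ) (hε : 0 < ε) :
    ∃ K η X0 : ℝ, 1 ≤ K ∧ 0 < η ∧ 1 ≤ X0 ∧
    ∀ (X Y : ℕ) (T : ℝ), X0 ≤ X → K * X ≤ Y → (Y : ℝ) ≤ (X : ℝ) ^ (1 + η) →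
      4 * (Real.log X) ^ 2 ≤ T → T ≤ (X : ℝ) ^ τ →
      0 < avg2 X Y (fun z => (NN (LI z.1) T (2 * T) : ℝ)) ∧
      (∀ q : ℕ, X < q → ∀ χ : DirichletCharacter ℂ q, χ.IsPrimitive →
        (zset (LI ⟨q, χ⟩) T (2 * T)).Finite) ∧
      (2 - c2 (hh τ) - ε) * avg2 X Y (fun z => (NN (LI z.1) T (2 * T) : ℝ)) ≤
        avg2 X Y (fun z => (On (LI z.1) (LI z.2) T : ℝ)) ∧
      (3 - c2 (hh τ) - ε) * avg2 X Y (fun z => (NN (LI z.1) T (2 * T) : ℝ)) ≤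
        avg2 X Y (fun z => ((zset (LI z.1) T (2 * T) ∪ zset (LI z.2) T (2 * T)).ncard : ℝ)) ∧
      avg2 X Y (fun z => (Cm (LI z.1) (LI z.2) T : ℝ)) ≤
        (c2 (hh τ) - 1 + ε) * avg2 X Y (fun z => (NN (LI z.1) T (2 * T) : ℝ)) := by
  obtain ⟨K, η, X0, hK, hη, hX0, h⟩ := pairs_core2 hcross hms hc2 τ ε hτ hε
  obtain ⟨A, hA, hgood⟩ := good_dirichlet_U
  refine ⟨K, η, max X0 (Real.exp 1), hK, hη, le_max_of_le_left hX0, ?_⟩
  intro X Y T hX a2 a3 a4 a5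
  have hXX : X0 ≤ X := (le_max_left _ _).trans hX
  have hXe : Real.exp 1 ≤ X := (le_max_right _ _).trans hX
  have hT1 : 1 ≤ T := by
    have h1 : 1 ≤ Real.log X := by
      rw [Real.le_log_iff_exp_le (lt_of_lt_of_le (Real.exp_pos 1) hXe)]; exact hXe
    nlinarith
  obtain ⟨b0, b1, b2⟩ := h X Y T hXX a2 a3 a4 a5
  have hgl' : ∀ p : IX, X < p.1 → p.2.IsPrimitive → GoodL (LI p) := by
    intro p h1 h3
    have hq : NeZero p.1 := ⟨by omega⟩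
    have e1 : LI p = DirichletCharacter.LFunction p.2 := by
      unfold LI LF
      rw [dif_neg (NeZero.ne _)]
    rw [e1]
    exact H385.PerChi.goodL hA (by exact_mod_cast (show 1 ≤ p.1 by omega)) (hgood p.1 p.2 h3)
  have hgl : ∀ p ∈ primSet X Y, GoodL (LI p) := by
    intro p hp
    obtain ⟨h1, h2, h3⟩ := (mem_primSet X Y p).mp hp
    exact hgl' p h1 h3
  have hcnt : ∀ z ∈ PS X Y, _ := fun z hz =>
    counts (hgl z.1 (Finset.mem_product.1 hz).1) (hgl z.2 (Finset.mem_product.1 hz).2) hT1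
  set Nav := avg2 X Y (fun z => (NN (LI z.1) T (2 * T) : ℝ)) with hNav
  have hN2 : avg2 X Y (fun z => (NN (F2 z) T (2 * T) : ℝ)) = 2 * Nav := by
    have e1 : avg2 X Y (fun z => (NN (F2 z) T (2 * T) : ℝ)) =
        avg2 X Y (fun z => (NN (LI z.1) T (2 * T) : ℝ) + (NN (LI z.2) T (2 * T) : ℝ)) := by
      unfold avg2
      refine Finset.sum_congr rfl fun z hz => ?_
      congr 1
      have := (hcnt z hz).1
      show ((NN (fun s => LI z.1 s * LI z.2 s) T (2 * T) : ℕ) : ℝ) = _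
      rw [this]
      push_cast
      rfl
    rw [e1, avg2_add, avg2_swap X Y (fun _ p => (NN (LI p) T (2 * T) : ℝ))]
    rw [← hNav]
    ring
  have hNs : avg2 X Y (fun z => (Ns (F2 z) T (2 * T) : ℝ)) ≤
      2 * avg2 X Y (fun z => (On (LI z.1) (LI z.2) T : ℝ)) := by
    have e1 : avg2 X Y (fun z => (Ns (F2 z) T (2 * T) : ℝ)) ≤
        avg2 X Y (fun z => (On (LI z.1) (LI z.2) T : ℝ) + (On (LI z.2) (LI z.1) T : ℝ)) := by
      refine avg2_mono X Y _ _ fun z hz => ?_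
      have := (hcnt z hz).2.2.1
      show ((Ns (fun s => LI z.1 s * LI z.2 s) T (2 * T) : ℕ) : ℝ) ≤ _
      exact_mod_cast this
    refine e1.trans (le_of_eq ?_)
    rw [avg2_add, avg2_swap X Y (fun p p' => (On (LI p') (LI p) T : ℝ))]
    ring
  have hNd : avg2 X Y (fun z => (Nd (F2 z) T (2 * T) : ℝ)) =
      avg2 X Y (fun z => ((zset (LI z.1) T (2 * T) ∪ zset (LI z.2) T (2 * T)).ncard : ℝ)) := by
    unfold avg2
    refine Finset.sum_congr rfl fun z hz => ?_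
    have := (hcnt z hz).2.1
    show w2 z * ((Nd (fun s => LI z.1 s * LI z.2 s) T (2 * T) : ℕ) : ℝ) = _
    rw [this]
  have hCm : avg2 X Y (fun z => (Cm (LI z.1) (LI z.2) T : ℝ)) +
      avg2 X Y (fun z => (Nd (F2 z) T (2 * T) : ℝ)) ≤ 2 * Nav := by
    rw [← avg2_add, ← hN2]
    refine avg2_mono X Y _ _ fun z hz => ?_
    have h1 := (hcnt z hz).2.2.2
    have h2 := (hcnt z hz).1
    rw [← h2] at h1
    show (Cm (LI z.1) (LI z.2) T : ℝ) + ((Nd (fun s => LI z.1 s * LI z.2 s) T (2 * T) : ℕ) : ℝ) ≤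
      ((NN (fun s => LI z.1 s * LI z.2 s) T (2 * T) : ℕ) : ℝ)
    exact_mod_cast h1
  have f1 : avg2 X Y (fun z => 2 * (NN (F2 z) T (2 * T) : ℝ) - (Ns (F2 z) T (2 * T) : ℝ)) =
      2 * (2 * Nav) - avg2 X Y (fun z => (Ns (F2 z) T (2 * T) : ℝ)) := by
    have e : ∀ z : IX × IX, 2 * (NN (F2 z) T (2 * T) : ℝ) - (Ns (F2 z) T (2 * T) : ℝ) =
        2 * (NN (F2 z) T (2 * T) : ℝ) + (-1) * (Ns (F2 z) T (2 * T) : ℝ) := fun z => by ring
    simp_rw [e]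
    rw [avg2_add, avg2_mul, avg2_mul, hN2]
    ring
  have f2 : avg2 X Y (fun z => 3 * (NN (F2 z) T (2 * T) : ℝ) - 2 * (Nd (F2 z) T (2 * T) : ℝ)) =
      3 * (2 * Nav) - 2 * avg2 X Y (fun z => (Nd (F2 z) T (2 * T) : ℝ)) := by
    have e : ∀ z : IX × IX, 3 * (NN (F2 z) T (2 * T) : ℝ) - 2 * (Nd (F2 z) T (2 * T) : ℝ) =
        3 * (NN (F2 z) T (2 * T) : ℝ) + (-2) * (Nd (F2 z) T (2 * T) : ℝ) := fun z => by ring
    simp_rw [e]
    rw [avg2_add, avg2_mul, avg2_mul, hN2]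
    ring
  rw [f1, hN2] at b1
  rw [f2, hN2] at b2
  rw [hN2] at b0
  rw [hNd] at b2 hCm
  refine ⟨by linarith, fun q hq χ hχ => H370.zset_finite (hgl' ⟨q, χ⟩ hq hχ) T _ hT1,
    by linarith, by linarith, by linarith⟩

end Pool.Agent.N880.HP
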