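import Pool.Agent.N880.HP.Stm
import Pool.Agent.R321.RC2
import Pool.Agent.N880.HD.Ms

/-! # Project HP: the mean square of the average of the prime sums (leaf CR) -/

set_option autoImplicit false

open Complex Filter Topology MeasureTheory Set

namespace Pool.Agent.N880.HP

open H385 (primFam bt wt WW IX primSet primFam_eq Pf wt_nonneg wt_sq_int)
open Pool.Agent.N880.QF (PP mem_PP yy yy_sq yy_abs card_PP sq_add_le)
open Pool.Agent.N880.HD (main_sum_integrable thr block_int)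

/-- Cauchy's inequality for coefficients in a short logarithmic block -/
lemma block_cs {s2 L2 u ρ : ℝ} {B : ℕ} (hρ : 0 < ρ) (hρ1 : ρ ≤ 1) (v : ℝ) (x : ℕ → ℂ)
    (hx : ∀ p : ℕ, ρ < |Real.log p - v| → x p = 0) :
    ‖∑ p ∈ PP B s2 L2 u, x p‖ ^ 2 ≤
      (12 * ρ * Real.exp (u + s2 * L2) + 1) * ∑ p ∈ PP B s2 L2 u, ‖x p‖ ^ 2 := by
  classical
  obtain ⟨P, hP⟩ : ∃ P, P = PP B s2 L2 u := ⟨_, rfl⟩
  obtain ⟨P', hP'⟩ : ∃ P', P' = P.filter (fun p : ℕ => |Real.log p - v| ≤ ρ) := ⟨_, rfl⟩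
  rw [← hP]
  have e1 : ∑ p ∈ P, x p = ∑ p ∈ P', x p := by
    rw [hP', Finset.sum_filter]
    refine Finset.sum_congr rfl fun p _ => ?_
    split_ifs with h
    · rfl
    · exact hx p (not_le.1 h)
  have hcard : (P'.card : ℝ) ≤ 12 * ρ * Real.exp (u + s2 * L2) + 1 := by
    rcases P'.eq_empty_or_nonempty with hne | ⟨p0, hp0⟩
    · rw [hne, Finset.card_empty, Nat.cast_zero]
      positivity
    · rw [hP', Finset.mem_filter, hP] at hp0
      obtain ⟨g1, g2, g3⟩ := mem_PP hp0.1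
      have hv : v ≤ u + s2 * L2 + ρ := by
        have h1 := (abs_le.1 hp0.2).1
        have h2 := (abs_le.1 g3).2
        linarith
      obtain ⟨M, H, h1, h2, h3⟩ := block_int (v := v) hρ hρ1
      have hsub : P' ⊆ Finset.Ioc M (M + H) := by
        intro n hn
        rw [hP', Finset.mem_filter, hP] at hn
        obtain ⟨k3, k4, k5⟩ := mem_PP hn.1
        have hn0 : (0 : ℝ) < n := by exact_mod_cast k3.pos
        have k6 := abs_le.1 hn.2
        have k7 : Real.exp (v - ρ) ≤ n := by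
          rw [← Real.le_log_iff_exp_le hn0]; linarith [k6.1]
        have k8 : (n : ℝ) ≤ Real.exp (v + ρ) := by
          rw [← Real.log_le_iff_le_exp hn0]; linarith [k6.2]
        rw [Finset.mem_Ioc]
        refine ⟨?_, h2 n k8⟩
        by_contra hcon
        have := h1 n (by omega)
        linarith
      have h4 := Finset.card_le_card hsub
      rw [Nat.card_Ioc, Nat.add_sub_cancel_left] at h4
      have h5 : (P'.card : ℝ) ≤ H := by exact_mod_cast h4
      have e2 : Real.exp v ≤ 3 * Real.exp (u + s2 * L2) := by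
        calc Real.exp v ≤ Real.exp (u + s2 * L2 + 1) := Real.exp_le_exp.2 (by linarith)
          _ = Real.exp (u + s2 * L2) * Real.exp 1 := Real.exp_add _ _
          _ ≤ Real.exp (u + s2 * L2) * 3 :=
            mul_le_mul_of_nonneg_left (by linarith [Real.exp_one_lt_d9]) (Real.exp_pos _).le
          _ = _ := by ring
      have := mul_le_mul_of_nonneg_left e2 (show 0 ≤ 4 * ρ by positivity)
      linarith
  calc ‖∑ p ∈ P, x p‖ ^ 2 = ‖∑ p ∈ P', x p‖ ^ 2 := by rw [e1]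
    _ ≤ (∑ p ∈ P', ‖x p‖) ^ 2 := pow_le_pow_left₀ (norm_nonneg _) (norm_sum_le _ _) 2
    _ ≤ (P'.card : ℝ) * ∑ p ∈ P', ‖x p‖ ^ 2 := sq_sum_le_card_mul_sum_sq
    _ ≤ _ := by
        refine mul_le_mul hcard ?_ (Finset.sum_nonneg fun _ _ => by positivity) (by positivity)
        rw [hP']
        exact Finset.sum_le_sum_of_subset_of_nonneg (Finset.filter_subset _ _)
          (fun _ _ _ => by positivity)

/-- the sizes -/
lemma size_est {s τ L lX u A MM C1 X e : ℝ} (hs : 0 < s) (hs1 : s ≤ 1 / 2) (hτ : 0 ≤ τ)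
    (hL : 1 ≤ L) (hLX : L ≤ (1 + τ) * lX) (hu0 : 0 ≤ u) (hu : u ≤ 2 * L) (hX : 0 < X)
    (hlX : lX = Real.log X) (he : e = s / (16 * (1 + τ))) (hC1 : 0 < C1)
    (hA : A ≤ 3 * (12 * L ^ 2 * Real.exp (-(3 / 4 * s * L)) * X ^ 2 + 1))
    (hMM : MM = 4 * C1 ^ 2 * Real.exp (6 * e * L) / X ^ 2) :
    A * MM * (u + 1) ≤ 36 * C1 ^ 2 * (72 / (3 / 8 * s) ^ 3 + (1 + τ)) := by
  have h1τ : 0 < 1 + τ := by linarith
  have hMM0 : 0 ≤ MM := by rw [hMM]; positivity
  have hu1 : u + 1 ≤ 3 * L := by linarith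
  have hlX0 : 0 ≤ lX := by
    by_contra hcon
    push Not at hcon
    nlinarith
  have b1 : A * MM * (u + 1) ≤
      3 * (12 * L ^ 2 * Real.exp (-(3 / 4 * s * L)) * X ^ 2 + 1) * MM * (3 * L) := by
    refine mul_le_mul (mul_le_mul_of_nonneg_right hA hMM0) hu1 (by linarith) (by positivity)
  have heL : 6 * e * L = 3 / 8 * s * (L / (1 + τ)) := by
    rw [he]; field_simp; ring
  have hLd : L / (1 + τ) ≤ lX := by
    rw [div_le_iff₀ h1τ]; linarith
  have hLd2 : L / (1 + τ) ≤ L := div_le_self (by linarith) (by linarith)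
  have hXe : X = Real.exp lX := by rw [hlX, Real.exp_log hX]
  have c1 : Real.exp (-(3 / 4 * s * L)) * Real.exp (6 * e * L) ≤ Real.exp (-(3 / 8 * s * L)) := by
    rw [← Real.exp_add]
    apply Real.exp_le_exp.2
    rw [heL]
    have := mul_le_mul_of_nonneg_left hLd2 (show 0 ≤ 3 / 8 * s by positivity)
    linarith
  have c2 : Real.exp (6 * e * L) / X ^ 2 ≤ Real.exp (-lX) := by
    rw [hXe, ← Real.exp_nat_mul, ← Real.exp_sub]
    apply Real.exp_le_exp.2
    rw [heL]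
    have g1 := mul_le_mul_of_nonneg_left hLd (show 0 ≤ 3 / 8 * s by positivity)
    have g2 := mul_le_mul_of_nonneg_right hs1 hlX0
    push_cast
    linarith
  have c3 : L ^ 3 * Real.exp (-(3 / 8 * s * L)) ≤ 6 / (3 / 8 * s) ^ 3 := by
    have g1 := Real.pow_div_factorial_le_exp (x := 3 / 8 * s * L) (by positivity) 3
    rw [Real.exp_neg, ← div_eq_mul_inv, div_le_div_iff₀ (Real.exp_pos _) (by positivity)]
    have g2 : ((Nat.factorial 3 : ℕ) : ℝ) = 6 := by norm_num [Nat.factorial]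
    rw [g2, div_le_iff₀ (by norm_num)] at g1
    calc L ^ 3 * (3 / 8 * s) ^ 3 = (3 / 8 * s * L) ^ 3 := by ring
      _ ≤ _ := by linarith
  have c4 : L * Real.exp (-lX) ≤ 1 + τ := by
    have g1 : lX * Real.exp (-lX) ≤ 1 := by
      rw [Real.exp_neg, ← div_eq_mul_inv, div_le_one (Real.exp_pos _)]
      linarith [Real.add_one_le_exp lX]
    calc L * Real.exp (-lX) ≤ (1 + τ) * lX * Real.exp (-lX) :=
          mul_le_mul_of_nonneg_right hLX (Real.exp_pos _).le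
      _ = (1 + τ) * (lX * Real.exp (-lX)) := by ring
      _ ≤ (1 + τ) * 1 := mul_le_mul_of_nonneg_left g1 h1τ.le
      _ = _ := mul_one _
  refine b1.trans ?_
  have b2 : 3 * (12 * L ^ 2 * Real.exp (-(3 / 4 * s * L)) * X ^ 2 + 1) * MM * (3 * L) =
      36 * C1 ^ 2 * (12 * (L ^ 3 * (Real.exp (-(3 / 4 * s * L)) * Real.exp (6 * e * L))) +
        L * (Real.exp (6 * e * L) / X ^ 2)) := by
    rw [hMM]
    field_simp
    ring
  rw [b2]
  refine mul_le_mul_of_nonneg_left ?_ (by positivity)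
  refine add_le_add ?_ ?_
  · have g1 : L ^ 3 * (Real.exp (-(3 / 4 * s * L)) * Real.exp (6 * e * L)) ≤
        6 / (3 / 8 * s) ^ 3 :=
      (mul_le_mul_of_nonneg_left c1 (by positivity)).trans c3
    have g2 : 72 / (3 / 8 * s) ^ 3 = 12 * (6 / (3 / 8 * s) ^ 3) := by ring
    rw [g2]
    linarith
  · exact (mul_le_mul_of_nonneg_left c2 (by linarith)).trans c4

theorem cross_main (hgauss : Pool.Agent.N880.HD.S_gauss) (hwin : Pool.Agent.N880.HD.S_winC)
    (hrest : Pool.Agent.N880.QF.S_rest) : S_cross := by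
  intro τ s hτ hs hs1
  obtain ⟨Cg, hCg, hg⟩ := hgauss 1 one_pos
  obtain ⟨C2, κ0, d0, hC2, hκ0, hd0, hw⟩ := hwin 1 one_pos
  obtain ⟨CR, hCR, hr⟩ := hrest 1 (s / 8) (by positivity)
  obtain ⟨C3, hC3, hwt⟩ := wt_sq_int
  obtain ⟨C5, hC5, hcr⟩ := H385.lam_sq_crude
  obtain ⟨e, he⟩ : ∃ e, e = s / (16 * (1 + τ)) := ⟨_, rfl⟩
  have he0 : 0 < e := by rw [he]; positivity
  obtain ⟨C1, hC1, hdiv⟩ := Pool.Agent.H369R2.divisor_bound e he0
  obtain ⟨L1, hL1⟩ := thr (κ0 := κ0) (d0 := d0) (δ := 1) (e0 := 1) hs one_pos hCg one_pos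
  obtain ⟨C6, hC6⟩ : ∃ C6, C6 = 36 * C1 ^ 2 * (72 / (3 / 8 * s) ^ 3 + (1 + τ)) := ⟨_, rfl⟩
  have hC6p : 0 < C6 := by rw [hC6]; positivity
  refine ⟨2 * (C6 * C5 + C2 * C6 * C5 + C2 * (4 * Real.exp 144)) + 2 * CR ^ 2 * (1 + C3),
    max 3 (Real.exp L1), by positivity, le_max_left _ _, ?_⟩
  intro X Y T u hX hT1 hTL hTX hu0 hu
  have hX3 : (3 : ℝ) ≤ X := (le_max_left _ _).trans hX
  have hXL1 : Real.exp L1 ≤ X := (le_max_right _ _).trans hX
  have hX0 : (0 : ℝ) < X := by linarith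
  have hXn : 0 < X := by exact_mod_cast hX0
  have hT0 : 0 < T := by linarith
  obtain ⟨lX, hlX⟩ : ∃ lX, lX = Real.log X := ⟨_, rfl⟩
  obtain ⟨lT, hlT⟩ : ∃ lT, lT = Real.log T := ⟨_, rfl⟩
  have hLeq : Real.log (X * T) = lX + lT := by
    rw [Real.log_mul hX0.ne' hT0.ne', hlX, hlT]
  obtain ⟨L, hL⟩ : ∃ L, L = Real.log (X * T) := ⟨_, rfl⟩
  rw [← hL] at hTL hu
  rw [← hL] at hLeq
  have hlT0 : 0 ≤ lT := by rw [hlT]; exact Real.log_nonneg hT1
  have hlX1 : L1 ≤ lX := by rw [hlX, Real.le_log_iff_exp_le hX0]; exact hXL1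
  have hlX0 : 0 ≤ lX := by rw [hlX]; exact Real.log_nonneg (by linarith)
  have hlTX : lT ≤ τ * lX := by
    have := Real.log_le_log hT0 hTX
    rw [Real.log_rpow hX0] at this
    rw [hlT, hlX]; exact this
  obtain ⟨t1, t2, t3, t4, t5⟩ := hL1 L (by linarith)
  have hL0 : 0 < L := by linarith
  have hh1 : 1 ≤ (2 + τ) / (1 + τ) := by
    rw [le_div_iff₀ (by linarith)]; linarith
  have hh2 : (2 + τ) / (1 + τ) ≤ 2 := by
    rw [div_le_iff₀ (by linarith)]; linarith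
  have hhL : (2 + τ) / (1 + τ) * L ≤ 2 * lX + lT := by
    rw [div_mul_eq_mul_div, div_le_iff₀ (by linarith), hLeq]
    linarith
  have hu2 : u ≤ (2 + τ) / (1 + τ) * L - s * L := by
    have e1 : (1 - s) * ((2 + τ) / (1 + τ)) * L =
      (2 + τ) / (1 + τ) * L - s * ((2 + τ) / (1 + τ) * L) := by ring
    have e2 : L ≤ (2 + τ) / (1 + τ) * L := le_mul_of_one_le_left hL0.le hh1
    have e3 := mul_le_mul_of_nonneg_left e2 hs.le
    linarith
  have hsL : 0 ≤ s * L := by positivity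
  have hu2L : u ≤ 2 * L := by
    have := mul_le_mul_of_nonneg_right hh2 hL0.le
    linarith
  have hexp1 : u + s / 8 * (2 * L) ≤ 2 * lX + lT - 3 / 4 * s * L := by linarith
  have hexp2 : u + s / 8 * (2 * L) ≤ 3 * L := by
    have : s * L ≤ 1 / 2 * L := mul_le_mul_of_nonneg_right hs1 hL0.le
    linarith
  obtain ⟨P, hP⟩ : ∃ P, P = PP 1 (s / 8) (2 * L) u := ⟨_, rfl⟩
  have hPm : ∀ p ∈ P, p.Prime ∧ 1 < p ∧ |Real.log p - u| ≤ s / 8 * (2 * L) := fun p hp => by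
    rw [hP] at hp; exact mem_PP hp
  have hcard : (P.card : ℝ) ≤ Real.exp (3 * L) := by
    rw [hP]
    refine card_PP (Real.one_le_exp (by positivity)) ?_
    rw [Real.log_exp]; exact hexp2
  -- parameters
  obtain ⟨κ, hκ⟩ : ∃ κ, κ = T / L := ⟨_, rfl⟩
  obtain ⟨ρ, hρ⟩ : ∃ ρ, ρ = L ^ 2 / T := ⟨_, rfl⟩
  have hκL : L ≤ κ := by
    rw [hκ, le_div_iff₀ hL0, ← sq]; exact hTL
  have hκ1 : 0 < κ := by linarith
  have hκT : κ ≤ T := by
    rw [hκ]; exact div_le_self hT0.le t5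
  have hκd : κ ≤ d0 * T := by
    rw [hκ, div_le_iff₀ hL0]
    have : 1 ≤ d0 * L := by
      rw [div_le_iff₀ hd0] at t4; linarith
    have h2 := mul_le_mul_of_nonneg_right this hT0.le
    linarith
  have hρ0 : 0 < ρ := by rw [hρ]; positivity
  have hρ1 : ρ ≤ 1 := by rw [hρ, div_le_one hT0]; exact hTL
  have hκρ : κ * ρ = L := by rw [hκ, hρ]; field_simp
  obtain ⟨A0, hA0⟩ : ∃ A0, A0 = 12 * ρ * Real.exp (u + s / 8 * (2 * L)) + 1 := ⟨_, rfl⟩
  have hA01 : 1 ≤ A0 := by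
    rw [hA0]
    have : 0 ≤ 12 * ρ * Real.exp (u + s / 8 * (2 * L)) := by positivity
    linarith
  have hA0le : A0 ≤ 12 * L ^ 2 * Real.exp (-(3 / 4 * s * L)) * (X : ℝ) ^ 2 + 1 := by
    have e1 : Real.exp (u + s / 8 * (2 * L)) ≤ (X : ℝ) ^ 2 * T * Real.exp (-(3 / 4 * s * L)) := by
      refine (Real.exp_le_exp.2 hexp1).trans (le_of_eq ?_)
      rw [show 2 * lX + lT - 3 / 4 * s * L = lX + lX + lT + -(3 / 4 * s * L) by ring,
        Real.exp_add, Real.exp_add, Real.exp_add, hlX, hlT, Real.exp_log hX0, Real.exp_log hT0]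
      ring
    have e2 : 12 * ρ * Real.exp (u + s / 8 * (2 * L)) ≤
        12 * L ^ 2 * Real.exp (-(3 / 4 * s * L)) * (X : ℝ) ^ 2 := by
      calc _ ≤ 12 * ρ * ((X : ℝ) ^ 2 * T * Real.exp (-(3 / 4 * s * L))) :=
            mul_le_mul_of_nonneg_left e1 (by positivity)
        _ = _ := by
            rw [hρ]; field_simp
    rw [hA0]; linarith
  have hW0 : 0 ≤ WW X Y := H385.primFam_nonneg _ _ _ (fun _ _ => zero_le_one)
  have hWs : ∑ i ∈ primSet X Y, (1 / (i.1 : ℝ) ^ 2) = WW X Y := by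
    unfold WW; rw [primFam_eq]; simp
  obtain ⟨W, hWd⟩ : ∃ W, W = WW X Y := ⟨_, rfl⟩
  rw [← hWd] at hW0 hWs ⊢
  -- the average of the characters
  obtain ⟨m, hm⟩ : ∃ m : ℕ → ℂ, m = fun n => ∑ p ∈ primSet X Y,
    ((1 / (p.1 : ℝ) ^ 2 : ℝ) : ℂ) * p.2 (n : ZMod p.1) := ⟨_, rfl⟩
  have hmW : ∀ n, ‖m n‖ ≤ W := by
    intro n
    rw [hm, ← hWs]
    refine (norm_sum_le _ _).trans (Finset.sum_le_sum fun p _ => ?_)
    rw [norm_mul, Complex.norm_real, Real.norm_of_nonneg (by positivity)]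
    exact mul_le_of_le_one_right (by positivity) (DirichletCharacter.norm_le_one _ _)
  obtain ⟨MM, hMM⟩ : ∃ MM, MM = 4 * C1 ^ 2 * Real.exp (6 * e * L) / (X : ℝ) ^ 2 := ⟨_, rfl⟩
  have hMM0 : 0 ≤ MM := by rw [hMM]; positivity
  have hmP : ∀ p ∈ P, ‖m p‖ ^ 2 ≤ MM := by
    intro p hp
    obtain ⟨g1, g2, g3⟩ := hPm p hp
    have hp0 : (0 : ℝ) < p := by exact_mod_cast g1.pos
    have h1 := Pool.Agent.R321.RC.fam_sps_le X Y hXn g1.two_le
    have h2 : (((p - 1).divisors.card : ℕ) : ℝ) ≤ C1 * Real.exp (3 * e * L) := by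
      refine (hdiv (p - 1) (by omega)).trans ?_
      refine mul_le_mul_of_nonneg_left ?_ hC1.le
      have e1 : ((p - 1 : ℕ) : ℝ) ^ e ≤ (p : ℝ) ^ e := by
        refine Real.rpow_le_rpow (by positivity) ?_ he0.le
        exact_mod_cast Nat.sub_le p 1
      refine e1.trans ?_
      rw [Real.rpow_def_of_pos hp0]
      apply Real.exp_le_exp.2
      have e2 : Real.log p ≤ 3 * L := by
        have := (abs_le.1 g3).2
        linarith
      calc Real.log p * e ≤ 3 * L * e := mul_le_mul_of_nonneg_right e2 he0.le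
        _ = _ := by ring
    have h3 : ‖m p‖ ≤ 2 * (C1 * Real.exp (3 * e * L)) / X := by
      rw [hm]
      refine h1.trans ?_
      gcongr
    calc ‖m p‖ ^ 2 ≤ (2 * (C1 * Real.exp (3 * e * L)) / X) ^ 2 :=
          pow_le_pow_left₀ (norm_nonneg _) h3 2
      _ = _ := by
          rw [hMM, show 6 * e * L = 3 * e * L + 3 * e * L by ring, Real.exp_add]
          ring
  -- kernel estimate
  have hker := hg Unit ℕ {()} (fun _ => 1) (fun _ _ => 1) P (fun p => Real.log p) A0 κ ρ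
    (fun _ _ => zero_le_one) (fun _ _ => by simp) hκ1 hρ0 (by linarith) (fun v x hx => by
      simp only [Finset.sum_singleton, one_mul]
      rw [hP, hA0]
      exact block_cs hρ0 hρ1 v x hx)
  obtain ⟨A, hA⟩ : ∃ A, A = 2 * A0 + 1 := ⟨_, rfl⟩
  have hA0' : 0 ≤ A := by rw [hA]; linarith
  have hker2 : ∀ x : ℕ → ℂ, ∑ i ∈ ({()} : Finset Unit), (fun _ : Unit => (1 : ℝ)) i *
      (∑ p ∈ P, ∑ q ∈ P, ((fun (_ : Unit) (_ : ℕ) => (1 : ℂ)) i p * x p) *
        (starRingEnd ℂ) ((fun (_ : Unit) (_ : ℕ) => (1 : ℂ)) i q * x q) *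
        ((Real.exp (-(κ ^ 2 * (Real.log p - Real.log q) ^ 2 / 4)) : ℝ) : ℂ)).re ≤
      A * ∑ p ∈ P, ‖x p‖ ^ 2 := by
    intro x
    refine (hker x).trans ?_
    refine mul_le_mul_of_nonneg_right ?_ (Finset.sum_nonneg fun _ _ => by positivity)
    rw [hA, hκρ, Finset.sum_singleton, mul_one]
    have e1 : Cg * P.card * Real.exp (-L ^ 2 / 2) ≤ 1 := by
      calc _ ≤ Cg * Real.exp (3 * L) * Real.exp (-L ^ 2 / 2) := by gcongr
        _ = Cg * (Real.exp (3 * L) * Real.exp (-L ^ 2 / 2)) := by ring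
        _ ≤ _ := t2
    linarith
  -- window lemma
  have hwin1 := hw Unit ℕ {()} (fun _ => 1) (fun _ _ => 1) P (fun p => Real.log p)
    (fun p => m p * ((yy p : ℝ) : ℂ)) A κ T u
    (fun _ _ => zero_le_one) (fun _ _ => by simp) (fun p _ => Real.log_natCast_nonneg p)
    (t3.trans hκL) hκd hA0' hker2
  simp only [Finset.sum_singleton, one_mul] at hwin1
  -- the main sum
  obtain ⟨M, hM⟩ : ∃ M : ℝ → ℂ, M = fun t => ∑ p ∈ P, m p *
    ((yy p : ℝ) : ℂ) * bt T u t (Real.log p) := ⟨_, rfl⟩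
  have hW1 : (0 : ℝ) < 1 + W := by linarith
  have hpt : ∀ t : ℝ, ‖∑ p ∈ primSet X Y, ((1 / (p.1 : ℝ) ^ 2 : ℝ) : ℂ) *
      Pf (cfp p) T u t‖ ^ 2 ≤ 2 * ‖M t‖ ^ 2 + 2 * ((1 + W) ^ 2 * CR ^ 2) * wt T t ^ 2 := by
    intro t
    have hwn := wt_nonneg T t hT0.le
    obtain ⟨a', ha'⟩ : ∃ a' : ℕ → ℂ, a' = fun n => ((1 + W : ℝ) : ℂ)⁻¹ *
      (m n * (ArithmeticFunction.vonMangoldt n : ℂ)) := ⟨_, rfl⟩
    have hc0 : ((1 + W : ℝ) : ℂ) ≠ 0 := by exact_mod_cast hW1.ne'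
    have haa : ∀ n, m n * (ArithmeticFunction.vonMangoldt n : ℂ) = ((1 + W : ℝ) : ℂ) * a' n := by
      intro n
      rw [ha']
      field_simp
    have ha'n : ∀ n, ‖a' n‖ ≤ ArithmeticFunction.vonMangoldt n := by
      intro n
      have hvn : (0 : ℝ) ≤ ArithmeticFunction.vonMangoldt n :=
        ArithmeticFunction.vonMangoldt_nonneg
      rw [ha']
      simp only
      rw [norm_mul, norm_inv, norm_mul, Complex.norm_real, Complex.norm_real,
        Real.norm_of_nonneg hW1.le, Real.norm_of_nonneg hvn, inv_mul_le_iff₀ hW1]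
      exact mul_le_mul_of_nonneg_right ((hmW n).trans (by linarith)) hvn
    have e1 : ∑ p ∈ primSet X Y, ((1 / (p.1 : ℝ) ^ 2 : ℝ) : ℂ) * Pf (cfp p) T u t =
        ((1 + W : ℝ) : ℂ) * ∑' n : ℕ, a' n * ((Real.sqrt n : ℂ)⁻¹ * bt T u t (Real.log n)) := by
      have e2 := Pool.Agent.R321.RC.Pf_sum (primSet X Y) (fun p => 1 / (p.1 : ℝ) ^ 2)
        Pool.Agent.R321.RC.cf (fun p _ n => Pool.Agent.R321.RC.cf_norm p n) T u t hT0.le
      have e3 : ∑ p ∈ primSet X Y, ((1 / (p.1 : ℝ) ^ 2 : ℝ) : ℂ) * Pf (cfp p) T u t =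
        ∑ p ∈ primSet X Y, ((1 / (p.1 : ℝ) ^ 2 : ℝ) : ℂ) *
          Pf (Pool.Agent.R321.RC.cf p) T u t := rfl
      rw [e3, ← e2, ← tsum_mul_left]
      unfold H385.Pf
      refine tsum_congr fun n => ?_
      have e4 : ∑ p ∈ primSet X Y, ((1 / (p.1 : ℝ) ^ 2 : ℝ) : ℂ) *
          Pool.Agent.R321.RC.cf p n = m n * (ArithmeticFunction.vonMangoldt n : ℂ) := by
        rw [hm]
        simp only
        rw [Finset.sum_mul]
        refine Finset.sum_congr rfl fun p _ => ?_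
        unfold Pool.Agent.R321.RC.cf
        ring
      beta_reduce
      rw [e4, haa n]
      ring
    have h1 := hr (2 * L) u T t a' (by linarith) hu0 hu2L hT0.le ha'n
    have h2 : ((1 + W : ℝ) : ℂ) * ∑ p ∈ PP 1 (s / 8) (2 * L) u, a' p *
        ((Real.sqrt p : ℂ)⁻¹ * bt T u t (Real.log p)) = M t := by
      rw [hM, ← hP, Finset.mul_sum]
      refine Finset.sum_congr rfl fun p hp => ?_
      rw [← mul_assoc, ← haa p]
      unfold yy
      push_cast
      rw [div_eq_mul_inv]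
      ring
    have h3 : ‖(∑ p ∈ primSet X Y, ((1 / (p.1 : ℝ) ^ 2 : ℝ) : ℂ) * Pf (cfp p) T u t) - M t‖ ≤
        (1 + W) * (CR * wt T t) := by
      rw [e1, ← h2, ← mul_sub, norm_mul, Complex.norm_real, Real.norm_of_nonneg hW1.le]
      exact mul_le_mul_of_nonneg_left h1 hW1.le
    have h4 := norm_le_norm_add_norm_sub'
      (∑ p ∈ primSet X Y, ((1 / (p.1 : ℝ) ^ 2 : ℝ) : ℂ) * Pf (cfp p) T u t) (M t)
    refine (pow_le_pow_left₀ (norm_nonneg _) (h4.trans (add_le_add le_rfl h3)) 2).trans ?_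
    refine (sq_add_le one_pos _ _).trans (le_of_eq ?_)
    ring
  -- integrability
  have hTκ : T ≤ Real.exp (L ^ 2) := by
    have : T = Real.exp lT := by rw [hlT, Real.exp_log hT0]
    rw [this]
    apply Real.exp_le_exp.2
    have h2 : L * 1 ≤ L * L := mul_le_mul_of_nonneg_left t5 hL0.le
    rw [← sq] at h2
    linarith
  have hi1 : Integrable (fun t => ‖M t‖ ^ 2) := by
    rw [hM]
    exact main_sum_integrable P (fun p => m p * ((yy p : ℝ) : ℂ))
      (fun p => Real.log p) t5 hT1 hTκ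
  have hi2 : Integrable (fun t => wt T t ^ 2) := (hwt T hT0.le).1
  have hint : Integrable (fun t => 2 * ‖M t‖ ^ 2 +
      2 * ((1 + W) ^ 2 * CR ^ 2) * wt T t ^ 2) := (hi1.const_mul _).add (hi2.const_mul _)
  refine (integral_mono_of_nonneg (Eventually.of_forall fun t => by positivity) hint
    (Eventually.of_forall hpt)).trans ?_
  rw [integral_add (hi1.const_mul _) (hi2.const_mul _), integral_const_mul, integral_const_mul]
  have s2 : ∑ p ∈ P, ‖m p * ((yy p : ℝ) : ℂ)‖ ^ 2 * Real.exp (-(u - Real.log p) ^ 2 / 2) ≤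
      MM * (C5 * (u + 1)) := by
    obtain ⟨h1, h2⟩ := hcr u hu0
    refine le_trans ?_ (mul_le_mul_of_nonneg_left h2 hMM0)
    refine le_trans ?_ (mul_le_mul_of_nonneg_left (h1.sum_le_tsum P
      (fun n _ => by positivity)) hMM0)
    rw [Finset.mul_sum]
    refine Finset.sum_le_sum fun p hp => ?_
    rw [norm_mul, mul_pow, Complex.norm_real, Real.norm_eq_abs, sq_abs, yy_sq, mul_assoc]
    exact mul_le_mul_of_nonneg_right (hmP p hp) (by positivity)
  have s1 : ∑ p ∈ P, ‖m p * ((yy p : ℝ) : ℂ)‖ ^ 2 * Real.exp (-(u - Real.log p) ^ 2) ≤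
      MM * (C5 * (u + 1)) := by
    refine le_trans (Finset.sum_le_sum fun p _ => ?_) s2
    refine mul_le_mul_of_nonneg_left (Real.exp_le_exp.2 ?_) (by positivity)
    linarith [sq_nonneg (u - Real.log p)]
  have s3 : Real.exp (-κ ^ 2 / 16) * (∑ p ∈ P, ‖m p * ((yy p : ℝ) : ℂ)‖) ^ 2 ≤
      4 * Real.exp 144 * W ^ 2 := by
    have h1 : ∑ p ∈ P, ‖m p * ((yy p : ℝ) : ℂ)‖ ≤ 2 * W * Real.exp (3 * L) := by
      have h2 : ∑ p ∈ P, ‖m p * ((yy p : ℝ) : ℂ)‖ ≤ ∑ _p ∈ P, W * 2 :=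
        Finset.sum_le_sum fun p _ => by
          rw [norm_mul, Complex.norm_real, Real.norm_eq_abs]
          exact mul_le_mul (hmW p) (yy_abs p) (abs_nonneg _) hW0
      rw [Finset.sum_const, nsmul_eq_mul] at h2
      have h3 := mul_le_mul_of_nonneg_right hcard (show 0 ≤ W * 2 by positivity)
      linarith
    have h4 : (∑ p ∈ P, ‖m p * ((yy p : ℝ) : ℂ)‖) ^ 2 ≤ (2 * W * Real.exp (3 * L)) ^ 2 :=
      pow_le_pow_left₀ (Finset.sum_nonneg fun p _ => norm_nonneg _) h1 2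
    have h5 : Real.exp (-κ ^ 2 / 16) ≤ Real.exp (-L ^ 2 / 16) := by
      apply Real.exp_le_exp.2
      have : L ^ 2 ≤ κ ^ 2 := pow_le_pow_left₀ hL0.le hκL 2
      linarith
    calc _ ≤ Real.exp (-L ^ 2 / 16) * (2 * W * Real.exp (3 * L)) ^ 2 :=
          mul_le_mul h5 h4 (by positivity) (Real.exp_pos _).le
      _ = 4 * Real.exp (-L ^ 2 / 16 + (3 * L + 3 * L)) * W ^ 2 := by
          rw [Real.exp_add, Real.exp_add]; ring
      _ ≤ _ := by
          refine mul_le_mul_of_nonneg_right ?_ (by positivity)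
          refine mul_le_mul_of_nonneg_left (Real.exp_le_exp.2 ?_) (by norm_num)
          linarith [sq_nonneg (L - 48)]
  have hwtI := (hwt T hT0.le).2
  have hAM : A * MM * (u + 1) ≤ C6 := by
    rw [hC6]
    refine size_est (e := e) hs hs1 hτ t5 ?_ hu0 hu2L hX0 hlX he hC1 ?_ hMM
    · rw [hLeq]; linarith
    · rw [hA]; linarith
  have hAM0 : 0 ≤ A * MM * (u + 1) := by positivity
  have hwin2 : ∫ t : ℝ, ‖M t‖ ^ 2 ≤
      (C6 * C5 + C2 * C6 * C5 + C2 * (4 * Real.exp 144)) * (1 + W) ^ 2 * T := by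
    rw [hM]
    refine hwin1.trans ?_
    have b1 := mul_le_mul_of_nonneg_left s1 (show 0 ≤ (1 + 1) * A * (T / (2 * Real.pi)) by positivity)
    have b2 := mul_le_mul_of_nonneg_left s2 (show 0 ≤ C2 * A * κ by positivity)
    have b3 := mul_le_mul_of_nonneg_left s3 (show 0 ≤ C2 * T by positivity)
    have b4 : C2 * 1 * T * Real.exp (-κ ^ 2 / 16) * (∑ p ∈ P, ‖m p * ((yy p : ℝ) : ℂ)‖) ^ 2 =
      C2 * T * (Real.exp (-κ ^ 2 / 16) * (∑ p ∈ P, ‖m p * ((yy p : ℝ) : ℂ)‖) ^ 2) := by ring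
    have d1 : (1 + 1) * A * (T / (2 * Real.pi)) * (MM * (C5 * (u + 1))) ≤ C6 * C5 * T := by
      have g1 : (1 + 1) * A * (T / (2 * Real.pi)) * (MM * (C5 * (u + 1))) =
        (A * MM * (u + 1)) * (C5 * T / Real.pi) := by
        have := Real.pi_pos.ne'
        field_simp
        ring
      rw [g1]
      have g2 : C5 * T / Real.pi ≤ C5 * T :=
        div_le_self (by positivity) (by linarith [Real.pi_gt_three])
      calc _ ≤ C6 * (C5 * T) := mul_le_mul hAM g2 (by positivity) hC6p.le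
        _ = _ := by ring
    have d2 : C2 * A * κ * (MM * (C5 * (u + 1))) ≤ C2 * C6 * C5 * T := by
      calc _ = (A * MM * (u + 1)) * (C2 * C5 * κ) := by ring
        _ ≤ C6 * (C2 * C5 * T) := by
            refine mul_le_mul hAM ?_ (by positivity) hC6p.le
            exact mul_le_mul_of_nonneg_left hκT (by positivity)
        _ = _ := by ring
    have hW2 : W ^ 2 ≤ (1 + W) ^ 2 := pow_le_pow_left₀ hW0 (by linarith) 2
    have hW3 : 1 ≤ (1 + W) ^ 2 := one_le_pow₀ (by linarith)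
    have d3 : C2 * T * (4 * Real.exp 144 * W ^ 2) ≤ C2 * (4 * Real.exp 144) * (1 + W) ^ 2 * T := by
      calc _ = C2 * (4 * Real.exp 144) * T * W ^ 2 := by ring
        _ ≤ C2 * (4 * Real.exp 144) * T * (1 + W) ^ 2 :=
            mul_le_mul_of_nonneg_left hW2 (by positivity)
        _ = _ := by ring
    have d4 : C6 * C5 * T ≤ C6 * C5 * (1 + W) ^ 2 * T := by
      calc _ = C6 * C5 * T * 1 := by ring
        _ ≤ C6 * C5 * T * (1 + W) ^ 2 := mul_le_mul_of_nonneg_left hW3 (by positivity)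
        _ = _ := by ring
    have d5 : C2 * C6 * C5 * T ≤ C2 * C6 * C5 * (1 + W) ^ 2 * T := by
      calc _ = C2 * C6 * C5 * T * 1 := by ring
        _ ≤ C2 * C6 * C5 * T * (1 + W) ^ 2 := mul_le_mul_of_nonneg_left hW3 (by positivity)
        _ = _ := by ring
    have d6 : (C6 * C5 + C2 * C6 * C5 + C2 * (4 * Real.exp 144)) * (1 + W) ^ 2 * T =
      C6 * C5 * (1 + W) ^ 2 * T + C2 * C6 * C5 * (1 + W) ^ 2 * T +
        C2 * (4 * Real.exp 144) * (1 + W) ^ 2 * T := by ring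
    rw [d6]
    linarith
  have hrem : 2 * ((1 + W) ^ 2 * CR ^ 2) * ∫ t : ℝ, wt T t ^ 2 ≤
      2 * CR ^ 2 * (1 + C3) * (1 + W) ^ 2 * T := by
    have g1 : ∫ t : ℝ, wt T t ^ 2 ≤ (1 + C3) * T := by
      refine hwtI.trans ?_
      have h2 := mul_le_mul_of_nonneg_left hT1 hC3.le
      linarith
    calc _ ≤ 2 * ((1 + W) ^ 2 * CR ^ 2) * ((1 + C3) * T) :=
          mul_le_mul_of_nonneg_left g1 (by positivity)
      _ = _ := by ring
  calc _ ≤ 2 * ((C6 * C5 + C2 * C6 * C5 + C2 * (4 * Real.exp 144)) * (1 + W) ^ 2 * T) +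
        2 * CR ^ 2 * (1 + C3) * (1 + W) ^ 2 * T :=
        add_le_add (mul_le_mul_of_nonneg_left hwin2 (by norm_num)) hrem
    _ = _ := by ring

end Pool.Agent.N880.HP
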