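import Pool.Agent.R321.RC0
import Pool.Agent.H385R2.DirU
import Pool.Agent.H385R2.FinDA0
import Pool.Agent.H385R2.EcD1

/-!
# The product `L(s, χ) L(s, χ ψ)` for a primitive character of conductor prime to that of `ψ`
-/

set_option autoImplicit false

open Complex Filter Topology Set MeasureTheory

set_option maxHeartbeats 4000000

namespace Pool.Agent.N880.HP

open H385
open Pool.Agent.R321.RC (goodD_mul)

/-- change of the conductor by a factor `R` -/
theorem goodD_rescale {B Q R : ℝ} {F : ℂ → ℂ} {a : ℕ → ℂ} (hB : 1 ≤ B) (hQ : 1 ≤ Q) (hR : 1 ≤ R)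
    (h : GoodD 2 B (R * Q) F a) : GoodD 2 (B * R ^ B + 2 * Real.log R) Q F a := by
  have h2B : (1 : ℝ) ≤ R ^ B := Real.one_le_rpow hR (by linarith)
  have hlR : 0 ≤ 2 * Real.log R := mul_nonneg (by norm_num) (Real.log_nonneg hR)
  have hBB : B ≤ B * R ^ B := le_mul_of_one_le_right (by linarith) h2B
  have hR0 : 0 < R := by linarith
  refine ⟨h.an, ?_, ?_, h.nzr, h.nzl, h.symm, h.ha, h.ld, ?_⟩
  · intro s h1 h2 h3
    have hx : 1 ≤ Q * s.im := one_le_mul_of_one_le_of_one_le hQ h3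
    have hx0 : 0 ≤ Q * s.im := by linarith
    have e1 : (R * Q * s.im) ^ B = R ^ B * (Q * s.im) ^ B := by
      rw [show R * Q * s.im = R * (Q * s.im) by ring, Real.mul_rpow hR0.le hx0]
    have e2 : (Q * s.im) ^ B ≤ (Q * s.im) ^ (B * R ^ B + 2 * Real.log R) :=
      Real.rpow_le_rpow_of_exponent_le hx (by linarith)
    have e3 : 0 ≤ (Q * s.im) ^ (B * R ^ B + 2 * Real.log R) := by positivity
    calc ‖F s‖ ≤ B * (R * Q * s.im) ^ B := h.growth s h1 h2 h3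
      _ = (B * R ^ B) * (Q * s.im) ^ B := by rw [e1]; ring
      _ ≤ (B * R ^ B + 2 * Real.log R) * (Q * s.im) ^ (B * R ^ B + 2 * Real.log R) := by
          refine mul_le_mul (by linarith) e2 (by positivity) (by positivity)
  · intro t ht
    refine le_trans ?_ (h.lower t ht)
    exact inv_anti₀ (by linarith) (by linarith)
  · intro s h1 h2 h3 h4
    have b := h.left s h1 h2 h3 h4
    have hQs : 0 < Q * s.im := by
      have : 1 ≤ Q * s.im := one_le_mul_of_one_le_of_one_le hQ h3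
      linarith
    have e1 : ((2 * Real.log (R * Q * s.im) : ℝ) : ℂ) =
        ((2 * Real.log (Q * s.im) : ℝ) : ℂ) + ((2 * Real.log R : ℝ) : ℂ) := by
      rw [← Complex.ofReal_add]
      congr 1
      rw [show R * Q * s.im = R * (Q * s.im) by ring, Real.log_mul hR0.ne' hQs.ne']
      ring
    rw [e1] at b
    have hl : ‖((2 * Real.log R : ℝ) : ℂ)‖ ≤ 2 * Real.log R := by
      rw [Complex.norm_real, Real.norm_of_nonneg hlR]
    calc _ = ‖(deriv F s / F s + (((2 * Real.log (Q * s.im) : ℝ) : ℂ) +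
          ((2 * Real.log R : ℝ) : ℂ)) + (starRingEnd ℂ) (deriv F (1 - (starRingEnd ℂ) s) /
          F (1 - (starRingEnd ℂ) s))) - ((2 * Real.log R : ℝ) : ℂ)‖ := by
          congr 1
          ring
      _ ≤ B + 2 * Real.log R := (norm_sub_le _ _).trans (add_le_add b hl)
      _ ≤ B * R ^ B + 2 * Real.log R := by linarith

/-- the L-function of a character, zero if the modulus is zero -/
noncomputable def LL (q : ℕ) (χ : DirichletCharacter ℂ q) : ℂ → ℂ :=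
  if h : q = 0 then 0 else
    haveI : NeZero q := ⟨h⟩
    DirichletCharacter.LFunction χ

lemma LL_eq (q : ℕ) [NeZero q] (χ : DirichletCharacter ℂ q) :
    LL q χ = DirichletCharacter.LFunction χ := by
  unfold LL
  rw [dif_neg (NeZero.ne q)]

/-- the product `L(s, χ) L(s, χ ψ)` -/
noncomputable def Fψ {m : ℕ} (ψ : DirichletCharacter ℂ m) (q : ℕ) (χ : DirichletCharacter ℂ q) :
    ℂ → ℂ := fun s => LL q χ s * LL (q * m) (pm χ ψ) s

/-- its coefficients -/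
noncomputable def cψ {m : ℕ} (ψ : DirichletCharacter ℂ m) (n : ℕ) : ℂ := 1 + ψ (n : ZMod m)

lemma cψ_le {m : ℕ} (ψ : DirichletCharacter ℂ m) (n : ℕ) : ‖cψ ψ n‖ ≤ 2 := by
  unfold cψ
  have h1 := DirichletCharacter.norm_le_one ψ (n : ZMod m)
  calc ‖(1 : ℂ) + ψ (n : ZMod m)‖ ≤ ‖(1 : ℂ)‖ + ‖ψ (n : ZMod m)‖ := norm_add_le _ _
    _ ≤ 2 := by rw [norm_one]; linarith

/-- both factors satisfy the conditions `GoodU` -/
theorem good_bothψ {m : ℕ} (hm : m ≠ 0) (ψ : DirichletCharacter ℂ m) (hψ : ψ.IsPrimitive) :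
    ∃ A : ℝ, 1 ≤ A ∧ ∀ (q : ℕ) (χ : DirichletCharacter ℂ q), 1 ≤ q →
    Nat.Coprime q m → χ.IsPrimitive →
    GoodU A q (LL q χ) (fun n => χ (n : ZMod q) * (ArithmeticFunction.vonMangoldt n : ℂ)) ∧
    GoodU A ((m : ℝ) * (q : ℝ)) (LL (q * m) (pm χ ψ)) (fun n => χ (n : ZMod q) *
      ψ (n : ZMod m) * (ArithmeticFunction.vonMangoldt n : ℂ)) := by
  obtain ⟨A, hA, hgood⟩ := good_dirichlet_U
  refine ⟨A, hA, fun q χ hq hc hχ => ?_⟩
  have hq0 : NeZero q := ⟨by omega⟩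
  have hm0 : NeZero m := ⟨hm⟩
  have h40 : NeZero (q * m) := ⟨Nat.mul_ne_zero (NeZero.ne q) hm⟩
  have hprim : (pm χ ψ).IsPrimitive := pm_primitive hc hχ hψ
  refine ⟨?_, ?_⟩
  · rw [LL_eq]
    exact hgood q χ hχ
  · rw [LL_eq]
    have h := hgood (q * m) (pm χ ψ) hprim
    have e1 : (((q * m : ℕ) : ℝ)) = (m : ℝ) * (q : ℝ) := by push_cast; ring
    rw [e1] at h
    have e2 : (fun n : ℕ => pm χ ψ (n : ZMod (q * m)) * (ArithmeticFunction.vonMangoldt n : ℂ)) =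
        (fun n : ℕ => χ (n : ZMod q) * ψ (n : ZMod m) *
          (ArithmeticFunction.vonMangoldt n : ℂ)) := by
      funext n
      rw [pm_apply]
    rw [e2] at h
    exact h

theorem Fψ_good {m : ℕ} (hm : m ≠ 0) (ψ : DirichletCharacter ℂ m) (hψ : ψ.IsPrimitive) :
    ∃ A : ℝ, 1 ≤ A ∧ ∀ (q : ℕ) (χ : DirichletCharacter ℂ q), 1 ≤ q →
    Nat.Coprime q m → χ.IsPrimitive → GoodD 2 A q (Fψ ψ q χ)
      (fun n => χ (n : ZMod q) * cψ ψ n * (ArithmeticFunction.vonMangoldt n : ℂ)) := by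
  obtain ⟨A, hA, hg⟩ := good_bothψ hm ψ hψ
  obtain ⟨B, hB⟩ : ∃ B, B = 2 * A ^ 2 := ⟨_, rfl⟩
  obtain ⟨R, hR⟩ : ∃ R, R = Real.sqrt m := ⟨_, rfl⟩
  have hm1 : (1 : ℝ) ≤ m := by exact_mod_cast Nat.one_le_iff_ne_zero.2 hm
  have hR1 : 1 ≤ R := by rw [hR]; exact Real.one_le_sqrt.2 hm1
  have hB1 : 1 ≤ B := by
    have : 1 ≤ A ^ 2 := one_le_pow₀ hA
    rw [hB]; linarith
  refine ⟨B * R ^ B + 2 * Real.log R, ?_, ?_⟩
  · have h1 : 1 ≤ R ^ B := Real.one_le_rpow hR1 (by linarith)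
    have h2 : 0 ≤ Real.log R := Real.log_nonneg hR1
    have h3 : 1 ≤ B * R ^ B := one_le_mul_of_one_le_of_one_le hB1 h1
    linarith
  · intro q χ hq hc hχ
    obtain ⟨g1, g2⟩ := hg q χ hq hc hχ
    have hq1 : (1 : ℝ) ≤ q := by exact_mod_cast hq
    have hmq : (1 : ℝ) ≤ (m : ℝ) * q := one_le_mul_of_one_le_of_one_le hm1 hq1
    have h := goodD_mul hA hq1 hmq g1 g2
    have e1 : Real.sqrt ((q : ℝ) * ((m : ℝ) * (q : ℝ))) = R * q := by
      rw [show (q : ℝ) * ((m : ℝ) * (q : ℝ)) = m * (q : ℝ) ^ 2 by ring,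
        Real.sqrt_mul (by linarith), Real.sqrt_sq (by linarith), hR]
    rw [e1, ← hB] at h
    have h2 := goodD_rescale hB1 hq1 hR1 h
    have e3 : (fun n : ℕ => χ (n : ZMod q) * (ArithmeticFunction.vonMangoldt n : ℂ) +
        χ (n : ZMod q) * ψ (n : ZMod m) * (ArithmeticFunction.vonMangoldt n : ℂ)) =
        (fun n : ℕ => χ (n : ZMod q) * cψ ψ n * (ArithmeticFunction.vonMangoldt n : ℂ)) := by
      funext n
      unfold cψ
      ring
    rw [e3] at h2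
    exact h2

end Pool.Agent.N880.HP
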