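import Mathlib
import Pool.Agent.W688.TW.Kara

/-!
# Weak Selberg orthonormality for `(1 + ψ) / √2`
-/

set_option autoImplicit false

open Complex Filter Topology Set

namespace Pool.Agent.N880.HP

open ArithmeticFunction.vonMangoldt in
lemma rc_lim {q : ℕ} [NeZero q] {a : ZMod q} (ha : IsUnit a) :
    Tendsto (fun σ : ℝ => σ * ∑' n : ℕ, residueClass a n * (n : ℝ) ^ (-(1 + σ))) (𝓝[>] 0)
      (𝓝 ((q.totient : ℝ)⁻¹)) := by
  have H : ∀ σ : ℝ, 0 < σ → σ * ∑' n : ℕ, residueClass a n * (n : ℝ) ^ (-(1 + σ)) =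
      σ * (LFunctionResidueClassAux a ((1 + σ : ℝ) : ℂ)).re + (q.totient : ℝ)⁻¹ := by
    intro σ hσ
    have hx : 1 < 1 + σ := by linarith
    have H1 : ∑' n : ℕ, residueClass a n / (n : ℝ) ^ (1 + σ) =
        (LFunctionResidueClassAux a ((1 + σ : ℝ) : ℂ)).re + (q.totient : ℝ)⁻¹ / (1 + σ - 1) := by
      refine ofReal_injective ?_
      simp only [ofReal_tsum, ofReal_div, ofReal_cpow (Nat.cast_nonneg _), ofReal_natCast,
        ofReal_add, ofReal_inv, ofReal_sub, ofReal_one]
      have h1 := LFunctionResidueClassAux_real ha hx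
      have h2 := eqOn_LFunctionResidueClassAux ha
        (show ((1 + σ : ℝ) : ℂ) ∈ {s : ℂ | 1 < s.re} by simpa using hσ)
      rw [h1] at h2
      simp only [ofReal_add, ofReal_one] at h2 ⊢
      rw [h2, sub_add_cancel]
      simp only [LSeries, LSeries.term]
      refine tsum_congr fun n ↦ ?_
      split_ifs with hn
      · simp only [hn, residueClass_apply_zero, ofReal_zero, zero_div]
      · rfl
    have e : ∀ n : ℕ, residueClass a n * (n : ℝ) ^ (-(1 + σ)) =
        residueClass a n / (n : ℝ) ^ (1 + σ) := fun n => by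
      rw [Real.rpow_neg (Nat.cast_nonneg n), div_eq_mul_inv]
    simp_rw [e]
    rw [H1]
    have : 1 + σ - 1 = σ := by ring
    rw [this]
    field_simp
  have hc : ContinuousOn (fun x : ℝ ↦ (LFunctionResidueClassAux a x).re) (Set.Ici 1) :=
    continuous_re.continuousOn.comp (t := Set.univ) (continuousOn_LFunctionResidueClassAux a)
      (fun ⦃x⦄ _ ↦ trivial) |>.comp continuous_ofReal.continuousOn fun x hx ↦ by
        simpa using hx
  have h1 : Tendsto (fun σ : ℝ => 1 + σ) (𝓝[>] 0) (𝓝[Set.Ici 1] 1) := by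
    refine tendsto_nhdsWithin_iff.2 ⟨?_, ?_⟩
    · have : Continuous fun σ : ℝ => 1 + σ := by fun_prop
      have h0 := this.tendsto 0
      rw [add_zero] at h0
      exact h0.mono_left nhdsWithin_le_nhds
    · filter_upwards [self_mem_nhdsWithin] with σ hσ
      have : (0 : ℝ) < σ := hσ
      simp only [Set.mem_Ici]
      linarith
  have h2 := (hc 1 (Set.mem_Ici.2 le_rfl)).tendsto.comp h1
  have h3 : Tendsto (fun σ : ℝ => σ) (𝓝[>] 0) (𝓝 (0 : ℝ)) := nhdsWithin_le_nhds
  have h4 := (h3.mul h2).add_const ((q.totient : ℝ)⁻¹)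
  rw [zero_mul, zero_add] at h4
  refine h4.congr' ?_
  filter_upwards [self_mem_nhdsWithin] with σ hσ
  rw [H σ hσ]
  rfl

open ArithmeticFunction.vonMangoldt in
lemma rc_summable {q : ℕ} (a : ZMod q) {σ : ℝ} (hσ : 0 < σ) :
    Summable (fun n : ℕ => residueClass a n * (n : ℝ) ^ (-(1 + σ))) := by
  have h1 : LSeriesSummable (fun n => (ArithmeticFunction.vonMangoldt n : ℂ)) ((1 + σ : ℝ) : ℂ) :=
    ArithmeticFunction.LSeriesSummable_vonMangoldt (by simpa using hσ)
  refine Summable.of_norm_bounded h1.norm fun n => ?_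
  rw [Real.norm_of_nonneg (mul_nonneg (residueClass_nonneg a n) (by positivity))]
  rcases Nat.eq_zero_or_pos n with hn | hn
  · subst hn
    simp
  · rw [LSeries.term_of_ne_zero hn.ne', norm_div, Complex.norm_real,
      Real.norm_of_nonneg ArithmeticFunction.vonMangoldt_nonneg,
      Complex.norm_natCast_cpow_of_pos hn, ofReal_re, Real.rpow_neg (Nat.cast_nonneg n),
      ← div_eq_mul_inv]
    exact div_le_div_of_nonneg_right (residueClass_le a n) (by positivity)

open ArithmeticFunction.vonMangoldt in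
theorem selE_psi {m : ℕ} [NeZero m] (ψ : DirichletCharacter ℂ m) (hψ : ψ ≠ 1) (c : ℕ → ℂ)
    (hc : ∀ n : ℕ, ‖c n‖ ^ 2 = ‖1 + ψ (n : ZMod m)‖ ^ 2 / 2) : W388.SelE c := by
  classical
  obtain ⟨g, hg⟩ : ∃ g : ZMod m → ℝ, g = fun a => ‖1 + ψ a‖ ^ 2 / 2 := ⟨_, rfl⟩
  have hg0 : ∀ a, 0 ≤ g a := fun a => by rw [hg]; positivity
  -- the sum over the residue classes
  have hdec : ∀ n : ℕ, ArithmeticFunction.vonMangoldt n * g (n : ZMod m) =
      ∑ a : ZMod m, g a * residueClass a n := by
    intro n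
    rw [Finset.sum_eq_single (n : ZMod m)]
    · rw [residueClass, Set.indicator_of_mem (by simp), mul_comm]
    · intro a _ ha
      rw [residueClass, Set.indicator_of_notMem (by simpa using fun h => ha h.symm), mul_zero]
    · intro h
      exact absurd (Finset.mem_univ _) h
  have htot : ∀ n : ℕ, ArithmeticFunction.vonMangoldt n = ∑ a : ZMod m, residueClass a n := by
    intro n
    rw [Finset.sum_eq_single (n : ZMod m)]
    · rw [residueClass, Set.indicator_of_mem (by simp)]
    · intro a _ ha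
      rw [residueClass, Set.indicator_of_notMem (by simpa using fun h => ha h.symm)]
    · intro h
      exact absurd (Finset.mem_univ _) h
  have hone : ∀ n : ℕ, residueClass (0 : ZMod 1) n = ArithmeticFunction.vonMangoldt n := by
    intro n
    unfold residueClass
    exact Set.indicator_of_mem (show n ∈ {n : ℕ | (n : ZMod 1) = 0} from Subsingleton.elim _ _) _
  have hterm : ∀ (σ : ℝ), 0 < σ → ∀ n : ℕ, ArithmeticFunction.vonMangoldt n * ‖c n‖ ^ 2 / n *
      (n : ℝ) ^ (-σ) = ∑ a : ZMod m, g a * (residueClass a n * (n : ℝ) ^ (-(1 + σ))) := by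
    intro σ hσ n
    rcases Nat.eq_zero_or_pos n with rfl | hn
    · simp
    · have hn0 : (0 : ℝ) < n := by exact_mod_cast hn
      have e1 : (n : ℝ) ^ (-(1 + σ)) = (n : ℝ)⁻¹ * (n : ℝ) ^ (-σ) := by
        rw [neg_add, Real.rpow_add hn0, Real.rpow_neg_one]
      have e2 : ∑ a : ZMod m, g a * (residueClass a n * (n : ℝ) ^ (-(1 + σ))) =
          (∑ a : ZMod m, g a * residueClass a n) * (n : ℝ) ^ (-(1 + σ)) := by
        rw [Finset.sum_mul]
        exact Finset.sum_congr rfl fun a _ => by ring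
      rw [e2, ← hdec, e1, hc, hg]
      ring
  unfold W388.SelE
  refine W688.TW.t_kara (fun n => ArithmeticFunction.vonMangoldt n * ‖c n‖ ^ 2 / n)
    (fun n => ?_) (by simp) (fun σ hσ => ?_) ?_
  · exact div_nonneg (mul_nonneg ArithmeticFunction.vonMangoldt_nonneg (sq_nonneg _))
      (Nat.cast_nonneg n)
  · refine Summable.congr (summable_sum fun a (_ : a ∈ Finset.univ) =>
      (rc_summable a hσ).mul_left (g a)) fun n => (hterm σ hσ n).symm
  · obtain ⟨S, hS⟩ : ∃ S : ZMod m → ℝ → ℝ, S = fun a σ =>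
      σ * ∑' n : ℕ, residueClass a n * (n : ℝ) ^ (-(1 + σ)) := ⟨_, rfl⟩
    obtain ⟨S1, hS1⟩ : ∃ S1 : ℝ → ℝ, S1 = fun σ =>
      σ * ∑' n : ℕ, residueClass (0 : ZMod 1) n * (n : ℝ) ^ (-(1 + σ)) := ⟨_, rfl⟩
    have hS1l : Tendsto S1 (𝓝[>] 0) (𝓝 1) := by
      have h := rc_lim (q := 1) (a := 0) (by exact isUnit_of_subsingleton _)
      rw [Nat.totient_one, Nat.cast_one, inv_one] at h
      rw [hS1]
      exact h
    have hval : ∀ σ : ℝ, 0 < σ → σ * ∑' n : ℕ, ArithmeticFunction.vonMangoldt n * ‖c n‖ ^ 2 / n *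
        (n : ℝ) ^ (-σ) = (∑ a : ZMod m, (g a - 1 / 2) * S a σ) + 1 / 2 * S1 σ := by
      intro σ hσ
      have e1 : ∑' n : ℕ, ArithmeticFunction.vonMangoldt n * ‖c n‖ ^ 2 / n * (n : ℝ) ^ (-σ) =
          ∑ a : ZMod m, g a * ∑' n : ℕ, residueClass a n * (n : ℝ) ^ (-(1 + σ)) := by
        rw [tsum_congr (hterm σ hσ), Summable.tsum_finsetSum
          fun a _ => (rc_summable a hσ).mul_left (g a)]
        exact Finset.sum_congr rfl fun a _ => tsum_mul_left
      have e2 : ∑' n : ℕ, residueClass (0 : ZMod 1) n * (n : ℝ) ^ (-(1 + σ)) =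
          ∑ a : ZMod m, ∑' n : ℕ, residueClass a n * (n : ℝ) ^ (-(1 + σ)) := by
        rw [← Summable.tsum_finsetSum fun a _ => rc_summable a hσ]
        refine tsum_congr fun n => ?_
        rw [hone, htot, Finset.sum_mul]
      rw [e1, hS, hS1]
      simp only
      rw [e2, Finset.mul_sum, Finset.mul_sum, Finset.mul_sum, ← Finset.sum_add_distrib]
      exact Finset.sum_congr rfl fun a _ => by ring
    have hlim : Tendsto (fun σ => (∑ a : ZMod m, (g a - 1 / 2) * S a σ) + 1 / 2 * S1 σ) (𝓝[>] 0)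
        (𝓝 ((∑ a : ZMod m, (g a - 1 / 2) * (m.totient : ℝ)⁻¹) + 1 / 2 * 1)) := by
      refine Tendsto.add (tendsto_finset_sum _ fun a _ => ?_) (hS1l.const_mul _)
      by_cases ha : IsUnit a
      · have h := rc_lim ha
        rw [hS]
        exact h.const_mul _
      · have h0 : g a - 1 / 2 = 0 := by
          rw [hg]
          simp only
          rw [MulChar.map_nonunit ψ ha]
          norm_num
        rw [h0]
        simp
    have hsum : (∑ a : ZMod m, (g a - 1 / 2) * (m.totient : ℝ)⁻¹) + 1 / 2 * 1 = 1 := by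
      have hφ : (0 : ℝ) < m.totient := by
        exact_mod_cast Nat.totient_pos.2 (NeZero.pos m)
      have e1 : ∀ a : ZMod m, g a - 1 / 2 =
          1 / 2 * ((1 : MulChar (ZMod m) ℂ) a).re + (ψ a).re := by
        intro a
        by_cases ha : IsUnit a
        · have h1 : ‖ψ a‖ = 1 := by
            obtain ⟨b, rfl⟩ := ha
            exact DirichletCharacter.unit_norm_eq_one ψ b
          rw [MulChar.one_apply ha, hg]
          simp only
          have h2 : ‖1 + ψ a‖ ^ 2 = 1 + ‖ψ a‖ ^ 2 + 2 * (ψ a).re := by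
            rw [← Complex.normSq_eq_norm_sq, ← Complex.normSq_eq_norm_sq, Complex.normSq_add]
            simp
          rw [h2, h1]
          simp
          ring
        · rw [MulChar.map_nonunit _ ha, hg]
          simp only
          rw [MulChar.map_nonunit ψ ha]
          norm_num
      have e2 : ∑ a : ZMod m, (g a - 1 / 2) = 1 / 2 * m.totient := by
        rw [Finset.sum_congr rfl fun a _ => e1 a, Finset.sum_add_distrib, ← Finset.mul_sum,
          ← Complex.re_sum, ← Complex.re_sum, MulChar.sum_one_eq_card_units,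
          MulChar.sum_eq_zero_of_ne_one hψ, ZMod.card_units_eq_totient]
        simp
      rw [← Finset.sum_mul, e2]
      field_simp
      norm_num
    rw [hsum] at hlim
    refine hlim.congr' ?_
    filter_upwards [self_mem_nhdsWithin] with σ hσ
    exact (hval σ hσ).symm

end Pool.Agent.N880.HP
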