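import Pool.Agent.R321.RG4
import Pool.Agent.N880.HP.TwA
import Pool.Agent.N880.HP.TwB
import Pool.Agent.N880.HP.PairFin
import Pool.Agent.N880.HP.C2
import Pool.Agent.N880.HE.Fin

/-! # Common zeros of `L(s, χ)` and `L(s, χ ψ)` on average over `χ` -/

set_option autoImplicit false
set_option maxHeartbeats 4000000

open Complex Filter Topology MeasureTheory Set

namespace Pool.Agent.N880.HP

open H385 (primFamM primFamM_eq primSetM mem_primSetM Rw IX bt WM pm cM cM_pos prim_mass_M)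
open H370 (zset mult NN Nd Ns GoodL)
open W388 (SelE SWu rad rad_squarefree coprime_rad primFamM_rad)
open Pool.Agent.R321.RC (On Cm counts)
open Pool.Agent.R321.RD (Al once)
open Pool.Agent.R321.RG (fam_mono fam_congr fam_add)
open Pool.Agent.N7.MainC (inner_le)

lemma swu_scale (c c' : ℕ → ℂ) (h : ∀ n, ‖c n‖ ^ 2 = 2 * ‖c' n‖ ^ 2) (u : ℝ) :
    SWu c 1 u = 2 * SWu c' 1 u := by
  unfold SWu
  rw [← tsum_mul_left]
  refine tsum_congr fun n => ?_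
  rw [h]
  ring

theorem tw_core {m : ℕ} (hm : 1 < m) (ψ : DirichletCharacter ℂ m) (hψ : ψ.IsPrimitive)
    (τ ε : ℝ) (hτ : 0 ≤ τ) (hε : 0 < ε) :
    ∃ K η X0 : ℝ, 1 ≤ K ∧ 0 < η ∧ 1 ≤ X0 ∧
    ∀ (X Y : ℕ) (T : ℝ), X0 ≤ X → K * X ≤ Y → (Y : ℝ) ≤ (X : ℝ) ^ (1 + η) →
      4 * (Real.log X) ^ 2 ≤ T → T ≤ (X : ℝ) ^ τ →
      (∀ q : ℕ, X < q → q ≤ Y → Nat.Coprime q m → ∀ χ : DirichletCharacter ℂ q, χ.IsPrimitive →
        (1 : ℝ) ≤ (NN (Fψ ψ q χ) T (2 * T) : ℝ)) ∧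
      primFamM m X Y (fun q χ => 2 * (NN (Fψ ψ q χ) T (2 * T) : ℝ) -
          (Ns (Fψ ψ q χ) T (2 * T) : ℝ)) ≤
        (c2 (hh τ) + ε) * primFamM m X Y (fun q χ => (NN (Fψ ψ q χ) T (2 * T) : ℝ)) ∧
      primFamM m X Y (fun q χ => 3 * (NN (Fψ ψ q χ) T (2 * T) : ℝ) -
          2 * (Nd (Fψ ψ q χ) T (2 * T) : ℝ)) ≤
        (c2 (hh τ) + ε) * primFamM m X Y (fun q χ => (NN (Fψ ψ q χ) T (2 * T) : ℝ)) := by
  have hm0 : m ≠ 0 := by omega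
  haveI : NeZero m := ⟨hm0⟩
  have hψ1 : ψ ≠ 1 := by
    intro h
    have h1 : ψ.conductor = m := hψ
    rw [h, DirichletCharacter.conductor_one] at h1
    omega
  obtain ⟨A, hA, hgood⟩ := Fψ_good hm0 ψ hψ
  obtain ⟨g0, g1, g2⟩ := c2_main.1 (hh τ) (hh_pos hτ) (hh_le hτ)
  obtain ⟨Ci, hCi, hinner⟩ := inner_le 1 le_rfl
  obtain ⟨c', hc'⟩ : ∃ c' : ℕ → ℂ, c' = fun n => cψ ψ n / ((Real.sqrt 2 : ℝ) : ℂ) := ⟨_, rfl⟩
  have hn : ∀ n, ‖c' n‖ ^ 2 = ‖1 + ψ (n : ZMod m)‖ ^ 2 / 2 := by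
    intro n
    rw [hc']
    simp only
    rw [norm_div, div_pow, Complex.norm_real, Real.norm_eq_abs, sq_abs,
      Real.sq_sqrt (by norm_num)]
    rfl
  have hS : SelE c' := selE_psi ψ hψ1 c' hn
  have hsc : ∀ u, SWu (cψ ψ) 1 u = 2 * SWu c' 1 u :=
    swu_scale _ _ (fun n => by rw [hn]; unfold cψ; ring)
  obtain ⟨-, -, -, t4, -, -⟩ := Pool.Agent.W261.TW.t_smooth c' hS
  have hms0 := HE.msE_main (HE.primM_main HE.blockM_main Pool.Agent.N880.HD.cop_main)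
    Pool.Agent.N880.HD.gauss_main Pool.Agent.N880.HD.winC_main Pool.Agent.N880.QF.Rest.rest_main
  have hfam : ∀ X Y : ℕ, 1 ≤ X → ∀ i ∈ primSetM (rad m) X Y, 0 ≤ 1 / (i.1 : ℝ) ^ 2 ∧
      (X : ℝ) ≤ (i.1 : ℝ) ∧ (i.1 : ℝ) ≤ Y ∧ H385.GoodD 2 A (i.1 : ℝ) (Fψ ψ i.1 i.2)
        (fun n => i.2 (n : ZMod i.1) * cψ ψ n * (ArithmeticFunction.vonMangoldt n : ℂ)) := by
    intro X Y hX i hi
    obtain ⟨h1, h2, h4, h3⟩ := (mem_primSetM (rad m) X Y i).mp hi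
    exact ⟨by positivity, by exact_mod_cast h1.le, by exact_mod_cast h2,
      hgood i.1 i.2 (by omega) ((coprime_rad hm0 i.1).mp h4) h3⟩
  have hcont : Continuous (fun u => SWu (cψ ψ) 1 u) := by
    simp_rw [hsc]
    exact (t4 1 one_pos).const_mul 2
  have hYint : ∀ s : ℝ, 0 < s → ∃ L0 : ℝ, 0 < L0 ∧ ∀ (Λ A B T : ℝ), L0 ≤ Λ → 0 ≤ A → 0 ≤ B →
      0 ≤ T → ∫ u in (0 : ℝ)..Λ, Rw (hh τ) (u / Λ) * (A * SWu (cψ ψ) 1 u + B * T) ≤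
      A * (Real.sqrt Real.pi * Λ ^ 2 * (2 * (∫ α in (0 : ℝ)..1, α * Rw (hh τ) α) + s)) +
        B * (Rw (hh τ) 0 * Λ * T) := by
    intro s hs
    obtain ⟨L0, hL0, h⟩ := HE.Y_intE c' hS (hh τ) g0 g1 (s := s / 2) (by positivity)
    refine ⟨L0, hL0, fun Λ A B T hΛ hA hB hT => ?_⟩
    have h1 := h Λ (2 * A) B T hΛ (by positivity) hB hT
    have e1 : ∀ u, Rw (hh τ) (u / Λ) * (A * SWu (cψ ψ) 1 u + B * T) =
      Rw (hh τ) (u / Λ) * (2 * A * SWu c' 1 u + B * T) := fun u => by rw [hsc]; ring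
    simp_rw [e1]
    refine h1.trans (le_of_eq ?_)
    ring
  have hmsq : ∀ s : ℝ, 0 < s → s ≤ 1 / 2 → ∃ K C X0 : ℝ, 1 ≤ K ∧ 0 < C ∧ 3 ≤ X0 ∧
      ∀ (X Y : ℕ) (T u : ℝ), X0 ≤ X → K * X ≤ Y → (Y : ℝ) ≤ (X : ℝ) ^ 2 →
      1 ≤ T → (Real.log (X * T)) ^ 2 ≤ T → T ≤ (X : ℝ) ^ τ → 0 ≤ u →
      u ≤ (1 - s) * ((2 + τ) / (1 + τ)) * Real.log (X * T) →
      ∫ t : ℝ, ∑ i ∈ primSetM (rad m) X Y, (1 / (i.1 : ℝ) ^ 2) *
        ‖∑' n : ℕ, (i.2 (n : ZMod i.1) * cψ ψ n * (ArithmeticFunction.vonMangoldt n : ℂ)) *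
          ((Real.sqrt n : ℂ)⁻¹ * bt T u t (Real.log n))‖ ^ 2 ≤
      (1 + s) * (∑ i ∈ primSetM (rad m) X Y, 1 / (i.1 : ℝ) ^ 2) * (T / (2 * Real.pi)) *
          SWu (cψ ψ) 1 u +
        C * (∑ i ∈ primSetM (rad m) X Y, 1 / (i.1 : ℝ) ^ 2) * T := by
    intro s hs hs1
    obtain ⟨K, C, X0, hK, hC, hX0, h⟩ := hms0 (rad m) (rad_squarefree m) (cψ ψ) 2 one_le_two
      (fun n _ => cψ_le ψ n) τ s hτ hs hs1
    refine ⟨K, C, X0, hK, hC, hX0, ?_⟩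
    intro X Y T u hX hKX _ hT1 hTL hTX hu0 hu
    have h1 := h X Y T u hX hKX hT1 hTL hTX hu0 hu
    have hWs : WM (rad m) X Y = ∑ i ∈ primSetM (rad m) X Y, (1 / (i.1 : ℝ) ^ 2) := by
      unfold WM; rw [primFamM_eq]; simp
    rw [hWs] at h1
    simp only [primFamM_eq] at h1
    exact h1
  obtain ⟨K, η, X0, hK, hη, hX0, H⟩ := coreAbs 2 A (by norm_num) hA
    (fun X Y => primSetM (rad m) X Y) (fun i => 1 / (i.1 : ℝ) ^ 2) (fun i => (i.1 : ℝ))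
    (fun i => Fψ ψ i.1 i.2)
    (fun i n => i.2 (n : ZMod i.1) * cψ ψ n * (ArithmeticFunction.vonMangoldt n : ℂ))
    hfam (fun u => SWu (cψ ψ) 1 u) hcont
    (fun u => HE.swu1_nonneg _ _) (2 ^ 2 * Ci) (by positivity)
    (fun u hu => by
      have h1 := HE.swu1_le (cψ ψ) one_le_two (fun n _ => cψ_le ψ n) u
      have h2 := hinner u hu
      nlinarith)
    2 τ (hh τ) (c2 (hh τ) + ε) (by norm_num) hτ g0 g1 hYint hmsq (by
      have e1 : (2 : ℝ) * Rw (hh τ) 0 / ((2 + τ) / (1 + τ)) + 2 * ((2 + τ) / (1 + τ)) *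
          (2 * ∫ α in (0 : ℝ)..1, α * Rw (hh τ) α) / 2 = c2 (hh τ) := by
        rw [← g2]
        unfold hh
        ring
      rw [e1]
      linarith)
  refine ⟨K, η, X0, hK, hη, hX0, ?_⟩
  intro X Y T a1 a2 a3 a4 a5
  obtain ⟨b0, b1, b2⟩ := H X Y T a1 a2 a3 a4 a5
  refine ⟨fun q h1 h2 h4 χ h3 => ?_, ?_, ?_⟩
  · exact b0 ⟨q, χ⟩ ((mem_primSetM (rad m) X Y ⟨q, χ⟩).mpr ⟨h1, h2, (coprime_rad hm0 q).mpr h4, h3⟩)
  · rw [← primFamM_rad hm0, ← primFamM_rad hm0, primFamM_eq, primFamM_eq]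
    exact b1
  · rw [← primFamM_rad hm0, ← primFamM_rad hm0, primFamM_eq, primFamM_eq]
    exact b2

lemma lin1 {N1 S1 A1 k e : ℝ} (h1 : 2 * N1 - S1 ≤ (k + e / 3) * N1)
    (h2 : 3 * S1 ≤ N1 + 2 * A1) : (5 - 3 * k - e) / 2 * N1 ≤ A1 := by
  nlinarith

/-- **Common zeros of `L(s, χ)` and `L(s, χ ψ)`.** -/
theorem tw_fin {m : ℕ} (hm : 1 < m) (ψ : DirichletCharacter ℂ m) (hψ : ψ.IsPrimitive)
    (τ ε : ℝ) (hτ : 0 ≤ τ) (hε : 0 < ε) :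
    ∃ K η X0 : ℝ, 1 ≤ K ∧ 0 < η ∧ 1 ≤ X0 ∧
    ∀ (X Y : ℕ) (T : ℝ), X0 ≤ X → K * X ≤ Y → (Y : ℝ) ≤ (X : ℝ) ^ (1 + η) →
      4 * (Real.log X) ^ 2 ≤ T → T ≤ (X : ℝ) ^ τ →
      0 < primFamM m X Y (fun q χ => ((NN (LL q χ) T (2 * T) +
        NN (LL (q * m) (pm χ ψ)) T (2 * T) : ℕ) : ℝ)) ∧
      (∀ q : ℕ, X < q → Nat.Coprime q m → ∀ χ : DirichletCharacter ℂ q, χ.IsPrimitive →
        (zset (LL q χ) T (2 * T)).Finite ∧ (zset (LL (q * m) (pm χ ψ)) T (2 * T)).Finite) ∧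
      (2 - c2 (hh τ) - ε) * primFamM m X Y (fun q χ => ((NN (LL q χ) T (2 * T) +
        NN (LL (q * m) (pm χ ψ)) T (2 * T) : ℕ) : ℝ)) ≤
        primFamM m X Y (fun q χ => ((On (LL q χ) (LL (q * m) (pm χ ψ)) T +
          On (LL (q * m) (pm χ ψ)) (LL q χ) T : ℕ) : ℝ)) ∧
      (5 - 3 * c2 (hh τ) - ε) / 2 * primFamM m X Y (fun q χ => ((NN (LL q χ) T (2 * T) +
        NN (LL (q * m) (pm χ ψ)) T (2 * T) : ℕ) : ℝ)) ≤
        primFamM m X Y (fun q χ => ((Al (LL q χ) (LL (q * m) (pm χ ψ)) T +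
          Al (LL (q * m) (pm χ ψ)) (LL q χ) T : ℕ) : ℝ)) ∧
      (3 - c2 (hh τ) - ε) / 2 * primFamM m X Y (fun q χ => ((NN (LL q χ) T (2 * T) +
        NN (LL (q * m) (pm χ ψ)) T (2 * T) : ℕ) : ℝ)) ≤
        primFamM m X Y (fun q χ => ((zset (LL q χ) T (2 * T) ∪
          zset (LL (q * m) (pm χ ψ)) T (2 * T)).ncard : ℝ)) ∧
      primFamM m X Y (fun q χ => (Cm (LL q χ) (LL (q * m) (pm χ ψ)) T : ℝ)) ≤
        (c2 (hh τ) - 1 + ε) / 2 * primFamM m X Y (fun q χ => ((NN (LL q χ) T (2 * T) +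
        NN (LL (q * m) (pm χ ψ)) T (2 * T) : ℕ) : ℝ)) := by
  have hm0 : m ≠ 0 := by omega
  obtain ⟨K, η, X0, hK, hη, hX0, h⟩ := tw_core hm ψ hψ τ (ε / 3) hτ (by positivity)
  obtain ⟨A', hA', hg⟩ := good_bothψ hm0 ψ hψ
  have hsq := rad_squarefree m
  obtain ⟨C4, hC4, hmass⟩ := prim_mass_M (rad m) hsq
  have hc0 := cM_pos (rad m) hsq
  refine ⟨max K (Real.exp ((C4 + 1) / cM (rad m))), η, max X0 (Real.exp 1),
    le_max_of_le_left hK, hη, le_max_of_le_left hX0, ?_⟩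
  intro X Y T hX hKX hY hT1 hT2
  have hXX0 : X0 ≤ X := (le_max_left _ _).trans hX
  have hXe : Real.exp 1 ≤ X := (le_max_right _ _).trans hX
  have hX1r : (1 : ℝ) ≤ X := hX0.trans hXX0
  have hXpos : (0 : ℝ) < X := by linarith
  have hX1n : 1 ≤ X := by exact_mod_cast hX1r
  have hlog1 : 1 ≤ Real.log X := by
    rw [Real.le_log_iff_exp_le hXpos]; exact hXe
  have hT0 : 1 ≤ T := by nlinarith
  have hKX1 : K * X ≤ Y := (mul_le_mul_of_nonneg_right (le_max_left _ _) hXpos.le).trans hKX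
  have hKX2 : Real.exp ((C4 + 1) / cM (rad m)) * X ≤ Y :=
    (mul_le_mul_of_nonneg_right (le_max_right _ _) hXpos.le).trans hKX
  have hXYr : (X : ℝ) ≤ Y := by
    calc (X : ℝ) = 1 * X := (one_mul _).symm
      _ ≤ K * X := mul_le_mul_of_nonneg_right hK hXpos.le
      _ ≤ Y := hKX1
  have hXY : X ≤ Y := by exact_mod_cast hXYr
  obtain ⟨b0, b1, b2⟩ := h X Y T hXX0 hKX1 hY hT1 hT2
  have hgl : ∀ q : ℕ, X < q → Nat.Coprime q m → ∀ χ : DirichletCharacter ℂ q, χ.IsPrimitive →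
      GoodL (LL q χ) ∧ GoodL (LL (q * m) (pm χ ψ)) := by
    intro q hq hc χ hχ
    obtain ⟨g1, g2⟩ := hg q χ (by omega) hc hχ
    have hq1 : (1 : ℝ) ≤ q := by exact_mod_cast (show 1 ≤ q by omega)
    have hm1 : (1 : ℝ) ≤ m := by exact_mod_cast hm.le
    exact ⟨H385.PerChi.goodL hA' hq1 g1,
      H385.PerChi.goodL hA' (one_le_mul_of_one_le_of_one_le hm1 hq1) g2⟩
  have hcnt : ∀ q : ℕ, X < q → q ≤ Y → Nat.Coprime q m → ∀ χ : DirichletCharacter ℂ q,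
      χ.IsPrimitive → _ := fun q hq _ hc χ hχ =>
    counts (hgl q hq hc χ hχ).1 (hgl q hq hc χ hχ).2 hT0
  have hNN : primFamM m X Y (fun q χ => (NN (Fψ ψ q χ) T (2 * T) : ℝ)) =
      primFamM m X Y (fun q χ => ((NN (LL q χ) T (2 * T) +
        NN (LL (q * m) (pm χ ψ)) T (2 * T) : ℕ) : ℝ)) := by
    refine fam_congr m X Y _ _ fun q hq hq2 hc χ hχ => ?_
    have := (hcnt q hq hq2 hc χ hχ).1
    show ((NN (fun s => LL q χ s * LL (q * m) (pm χ ψ) s) T (2 * T) : ℕ) : ℝ) = _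
    rw [this]
  have hNs : primFamM m X Y (fun q χ => (Ns (Fψ ψ q χ) T (2 * T) : ℝ)) ≤
      primFamM m X Y (fun q χ => ((On (LL q χ) (LL (q * m) (pm χ ψ)) T +
          On (LL (q * m) (pm χ ψ)) (LL q χ) T : ℕ) : ℝ)) := by
    refine fam_mono m X Y _ _ fun q hq hq2 hc χ hχ => ?_
    have := (hcnt q hq hq2 hc χ hχ).2.2.1
    show ((Ns (fun s => LL q χ s * LL (q * m) (pm χ ψ) s) T (2 * T) : ℕ) : ℝ) ≤ _
    exact_mod_cast this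
  have hNd : primFamM m X Y (fun q χ => (Nd (Fψ ψ q χ) T (2 * T) : ℝ)) =
      primFamM m X Y (fun q χ => ((zset (LL q χ) T (2 * T) ∪
          zset (LL (q * m) (pm χ ψ)) T (2 * T)).ncard : ℝ)) := by
    refine fam_congr m X Y _ _ fun q hq hq2 hc χ hχ => ?_
    have := (hcnt q hq hq2 hc χ hχ).2.1
    show ((Nd (fun s => LL q χ s * LL (q * m) (pm χ ψ) s) T (2 * T) : ℕ) : ℝ) = _
    rw [this]
  have hCm : primFamM m X Y (fun q χ => (Cm (LL q χ) (LL (q * m) (pm χ ψ)) T : ℝ)) +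
      primFamM m X Y (fun q χ => (Nd (Fψ ψ q χ) T (2 * T) : ℝ)) ≤
      primFamM m X Y (fun q χ => ((NN (LL q χ) T (2 * T) +
        NN (LL (q * m) (pm χ ψ)) T (2 * T) : ℕ) : ℝ)) := by
    rw [← fam_add]
    refine fam_mono m X Y _ _ fun q hq hq2 hc χ hχ => ?_
    have := (hcnt q hq hq2 hc χ hχ).2.2.2
    show (Cm (LL q χ) (LL (q * m) (pm χ ψ)) T : ℝ) +
      ((Nd (fun s => LL q χ s * LL (q * m) (pm χ ψ) s) T (2 * T) : ℕ) : ℝ) ≤ _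
    exact_mod_cast this
  have hlin : ∀ (a b : ℝ) (f g : (q : ℕ) → DirichletCharacter ℂ q → ℝ),
      primFamM m X Y (fun q χ => a * f q χ - b * g q χ) =
        a * primFamM m X Y f - b * primFamM m X Y g := fun a b f g =>
    H385.primFamM_lin m X Y a b f g
  have hmul : ∀ (a : ℝ) (f : (q : ℕ) → DirichletCharacter ℂ q → ℝ),
      primFamM m X Y (fun q χ => a * f q χ) = a * primFamM m X Y f := by
    intro a f
    have h1 := hlin a 0 f f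
    simp only [zero_mul, sub_zero] at h1
    exact h1
  have hAl : 3 * primFamM m X Y (fun q χ => (Ns (Fψ ψ q χ) T (2 * T) : ℝ)) ≤
      primFamM m X Y (fun q χ => (NN (Fψ ψ q χ) T (2 * T) : ℝ)) +
      2 * primFamM m X Y (fun q χ => ((Al (LL q χ) (LL (q * m) (pm χ ψ)) T +
          Al (LL (q * m) (pm χ ψ)) (LL q χ) T : ℕ) : ℝ)) := by
    rw [← hmul, ← hmul, ← fam_add]
    refine fam_mono m X Y _ _ fun q hq hq2 hc χ hχ => ?_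
    have := once (hgl q hq hc χ hχ).1 (hgl q hq hc χ hχ).2 hT0
    show 3 * ((Ns (fun s => LL q χ s * LL (q * m) (pm χ ψ) s) T (2 * T) : ℕ) : ℝ) ≤
      ((NN (fun s => LL q χ s * LL (q * m) (pm χ ψ) s) T (2 * T) : ℕ) : ℝ) + _
    exact_mod_cast this
  have hW1 : 1 ≤ primFamM m X Y (fun _ _ => 1) := by
    rw [← primFamM_rad hm0]
    have h1 := (abs_le.mp (hmass X Y hX1n hXY)).1
    have h2 : (C4 + 1) / cM (rad m) ≤ Real.log ((Y : ℝ) / X) := by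
      have hYpos : (0 : ℝ) < Y := lt_of_lt_of_le hXpos hXYr
      rw [Real.le_log_iff_exp_le (div_pos hYpos hXpos), le_div_iff₀ hXpos]
      exact hKX2
    rw [div_le_iff₀ hc0] at h2
    linarith
  have hNpos : 0 < primFamM m X Y (fun q χ => (NN (Fψ ψ q χ) T (2 * T) : ℝ)) := by
    refine lt_of_lt_of_le (lt_of_lt_of_le one_pos hW1) ?_
    exact fam_mono m X Y _ _ fun q hq hq2 hc χ hχ => b0 q hq hq2 hc χ hχ
  have f1 := hlin 2 1 (fun q χ => (NN (Fψ ψ q χ) T (2 * T) : ℝ))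
    (fun q χ => (Ns (Fψ ψ q χ) T (2 * T) : ℝ))
  have f2 := hlin 3 2 (fun q χ => (NN (Fψ ψ q χ) T (2 * T) : ℝ))
    (fun q χ => (Nd (Fψ ψ q χ) T (2 * T) : ℝ))
  simp only [one_mul] at f1
  rw [f1] at b1
  rw [f2] at b2
  rw [hNN] at b1 b2 hNpos hAl
  rw [hNd] at b2 hCm
  have hεN := mul_pos hε hNpos
  refine ⟨hNpos, fun q hq hc χ hχ => ⟨H370.zset_finite (hgl q hq hc χ hχ).1 T _ hT0,
    H370.zset_finite (hgl q hq hc χ hχ).2 T _ hT0⟩, ?_, lin1 b1 hAl, ?_, ?_⟩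
  · linarith
  · linarith
  · linarith

end Pool.Agent.N880.HP
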